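import Pool.Agent.Work.MP_394e0d_co.Defs

namespace Pool.Agent.Work.MP_394e0d_co.B

/-- `row` and `col` (row-sets indexed by `R`, column-sets indexed by `C`, symbols in `V`) form an
unordered triple array: each row-set has `|C|` symbols, each column-set has `|R|` symbols, every
symbol lies in `e` row-sets and in `e` column-sets, and the row-column, row-row and column-column
intersection sizes are constant. -/
def IsUnorderedTripleArray {R C V : Type} (row : R → Set V) (col : C → Set V) : Prop :=
  (∀ i, (row i).ncard = Nat.card C) ∧ (∀ j, (col j).ncard = Nat.card R) ∧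
  (∃ e : ℕ, ∀ s : V, {i | s ∈ row i}.ncard = e ∧ {j | s ∈ col j}.ncard = e) ∧
  (∃ lrc : ℕ, ∀ i j, (row i ∩ col j).ncard = lrc) ∧
  (∃ lrr : ℕ, ∀ i i', i ≠ i' → (row i ∩ row i').ncard = lrr) ∧
  (∃ lcc : ℕ, ∀ j j', j ≠ j' → (col j ∩ col j').ncard = lcc)

end Pool.Agent.Work.MP_394e0d_co.B
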