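import Pool.Agent.Work.MP_394e0d_co.B.Uta

namespace Pool.Agent.Work.MP_394e0d_co.B

open Function

/-- The word of coordinates of a point. -/
def Four_w (x y a b c : Fin 4) (d : Fin 5) : Fin 4 := [x, y, a, b, c].getD d x

/-- Two words agree at most once, or belong to the same point. -/
def Four_ok (u v : Fin 5 → Fin 4) : Bool :=
  decide (∀ d, u d = v d → ∀ e, u e = v e → d = e ∨ (u 0 = v 0 ∧ u 1 = v 1))

/-- A label read from a table. -/
def Four_lab (t : ℕ) (u : Fin 5 → Fin 4) (d : Fin 5) : Fin 5 :=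
  Fin.ofNat 5 (t / 5 ^ (5 * (4 * (u 1).1 + (u 0).1) + d.1))

/-- One of the tables labels the flags. -/
def Four_fin (l : List (Fin 5 → Fin 4)) : Bool :=
  [6421899682800051425254948337499026925038593950359020576,
    5676375153515556718639297543961529404591816606609020576,
    7794436250117898325867658643221456778874653520671520576,
    5888101361921442420720441516425434721341389360515270576,
    23772357547923650988195108659316812283467549028484020576,
    5878344897642772707923038108025704152058857622234020576,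
    37006805709217842097001894655760366690869587602702770576,
    57018400727086276402075613661792118323560017290202770576,
    6416681732575911260628859492828577978215473833171520576,
    57018398623733741019498622374487549287877339067546520576,
    7793115529168626683227162068180714518498676958171520576,
    6413771147420558986657228744991098315190571489421520576].any fun t =>
    l.all fun u => decide ((∀ d e, Four_lab t u d = Four_lab t u e → d = e) ∧
      ∀ d, Four_lab t u d ≠ d) && l.all fun v =>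
        decide (∀ d, u d = v d → Four_lab t u d = Four_lab t v d → u 0 = v 0 ∧ u 1 = v 1)

/-- The search through all arrays. -/
def Four_go : List (Fin 4 × Fin 4) → List (Fin 5 → Fin 4) → Bool
  | [], l => Four_fin l
  | p :: ps, l => (List.finRange 4).all fun a => (List.finRange 4).all fun b =>
      (List.finRange 4).all fun c => !(l.all (Four_ok (Four_w p.1 p.2 a b c))) ||
        Four_go ps (l ++ [Four_w p.1 p.2 a b c])

private def ok2_h88 (u v : Fin 5 → Fin 4) : Bool :=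
  cond (Nat.beq (u 0).1 (v 0).1)
    (Nat.beq (u 1).1 (v 1).1 || !(Nat.beq (u 2).1 (v 2).1 || Nat.beq (u 3).1 (v 3).1 ||
      Nat.beq (u 4).1 (v 4).1))
    (cond (Nat.beq (u 1).1 (v 1).1)
      (!(Nat.beq (u 2).1 (v 2).1 || Nat.beq (u 3).1 (v 3).1 || Nat.beq (u 4).1 (v 4).1))
      (cond (Nat.beq (u 2).1 (v 2).1) (!(Nat.beq (u 3).1 (v 3).1 || Nat.beq (u 4).1 (v 4).1))
        (!(Nat.beq (u 3).1 (v 3).1 && Nat.beq (u 4).1 (v 4).1))))

private theorem ok2_eq_h88 (u v : Fin 5 → Fin 4) : Four_ok u v = ok2_h88 u v := by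
  have e : ∀ a b : Fin 4, Nat.beq a.1 b.1 = decide (a = b) := by decide
  rw [Bool.eq_iff_iff, Four_ok, decide_eq_true_iff]
  simp only [ok2_h88, Fin.forall_fin_succ, e]
  simp
  by_cases h0 : u 0 = v 0 <;> by_cases h1 : u 1 = v 1 <;> by_cases h2 : u 2 = v 2 <;>
    by_cases h3 : u 3 = v 3 <;> by_cases h4 : u 4 = v 4 <;>
    simp only [h0, h1, h2, h3, h4, and_self, and_true, and_false, true_and, false_and, imp_self,
      implies_true, imp_false, not_true_eq_false, not_false_eq_true, if_true, if_false, or_true,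
      or_false, true_or, false_imp_iff]

private def lab2_h88 (t : ℕ) (u : Fin 5 → Fin 4) (d : ℕ) : ℕ :=
  t / 5 ^ (5 * (4 * (u 1).1 + (u 0).1) + d) % 5

private def inj2_h88 (a b c d e : ℕ) : Bool :=
  !(Nat.beq a b || Nat.beq a c || Nat.beq a d || Nat.beq a e || Nat.beq b c || Nat.beq b d ||
    Nat.beq b e || Nat.beq c d || Nat.beq c e || Nat.beq d e || Nat.beq a 0 || Nat.beq b 1 ||
    Nat.beq c 2 || Nat.beq d 3 || Nat.beq e 4)

private def pr2_h88 (t : ℕ) (u v : Fin 5 → Fin 4) : Bool :=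
  (Nat.beq (u 0).1 (v 0).1 && Nat.beq (u 1).1 (v 1).1) ||
    !((Nat.beq (u 0).1 (v 0).1 && Nat.beq (lab2_h88 t u 0) (lab2_h88 t v 0)) ||
      (Nat.beq (u 1).1 (v 1).1 && Nat.beq (lab2_h88 t u 1) (lab2_h88 t v 1)) ||
      (Nat.beq (u 2).1 (v 2).1 && Nat.beq (lab2_h88 t u 2) (lab2_h88 t v 2)) ||
      (Nat.beq (u 3).1 (v 3).1 && Nat.beq (lab2_h88 t u 3) (lab2_h88 t v 3)) ||
      (Nat.beq (u 4).1 (v 4).1 && Nat.beq (lab2_h88 t u 4) (lab2_h88 t v 4)))

private theorem inj2_eq_h88 (t : ℕ) (u : Fin 5 → Fin 4) :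
    decide ((∀ d e, Four_lab t u d = Four_lab t u e → d = e) ∧ ∀ d, Four_lab t u d ≠ d) =
      inj2_h88 (lab2_h88 t u 0) (lab2_h88 t u 1) (lab2_h88 t u 2) (lab2_h88 t u 3)
        (lab2_h88 t u 4) := by
  have e : ∀ d d' : Fin 5, Four_lab t u d = Four_lab t u d' ↔
      lab2_h88 t u d.1 = lab2_h88 t u d'.1 := fun _ _ => Fin.ext_iff
  have e' : ∀ d : Fin 5, Four_lab t u d = d ↔ lab2_h88 t u d.1 = d.1 := fun _ => Fin.ext_iff
  rw [Bool.eq_iff_iff, decide_eq_true_iff]
  simp only [ne_eq, e, e', inj2_h88, Bool.not_eq_true', Fin.forall_fin_succ, ← Bool.not_eq_true]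
  simp
  exact ⟨fun ⟨⟨⟨h1, h2, h3, h4⟩, ⟨_, h5, h6, h7⟩, ⟨_, _, h8, h9⟩, ⟨_, _, _, h10⟩, _⟩, k1, k2, k3, k4,
      k5⟩ => ⟨⟨⟨⟨⟨⟨⟨⟨⟨⟨⟨⟨⟨⟨h1, h2⟩, h3⟩, h4⟩, h5⟩, h6⟩, h7⟩, h8⟩, h9⟩, h10⟩, k1⟩, k2⟩, k3⟩, k4⟩, k5⟩,
    fun ⟨⟨⟨⟨⟨⟨⟨⟨⟨⟨⟨⟨⟨⟨h1, h2⟩, h3⟩, h4⟩, h5⟩, h6⟩, h7⟩, h8⟩, h9⟩, h10⟩, k1⟩, k2⟩, k3⟩, k4⟩, k5⟩ =>
      ⟨⟨⟨h1, h2, h3, h4⟩, ⟨Ne.symm h1, h5, h6, h7⟩, ⟨Ne.symm h2, Ne.symm h5, h8, h9⟩,
        ⟨Ne.symm h3, Ne.symm h6, Ne.symm h8, h10⟩, Ne.symm h4, Ne.symm h7, Ne.symm h9, Ne.symm h10⟩,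
        k1, k2, k3, k4, k5⟩⟩

private theorem pr2_eq_h88 (t : ℕ) (u v : Fin 5 → Fin 4) :
    decide (∀ d, u d = v d → Four_lab t u d = Four_lab t v d → u 0 = v 0 ∧ u 1 = v 1) =
      pr2_h88 t u v := by
  have e : ∀ d : Fin 5, Four_lab t u d = Four_lab t v d ↔
      lab2_h88 t u d.1 = lab2_h88 t v d.1 := fun _ => Fin.ext_iff
  rw [Bool.eq_iff_iff, decide_eq_true_iff]
  simp only [e, pr2_h88, Fin.forall_fin_succ, Bool.or_eq_true, Bool.and_eq_true, Bool.not_eq_true',
    ← Bool.not_eq_true, Nat.beq_eq, Fin.val_inj]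
  simp
  by_cases h : u 0 = v 0 ∧ u 1 = v 1
  · simp only [h, and_self, implies_true, true_or]
  · simp only [h, imp_false, false_or, and_assoc]

private def fin2_h88 (l : List (Fin 5 → Fin 4)) : Bool :=
  [6421899682800051425254948337499026925038593950359020576,
    5676375153515556718639297543961529404591816606609020576,
    7794436250117898325867658643221456778874653520671520576,
    5888101361921442420720441516425434721341389360515270576,
    23772357547923650988195108659316812283467549028484020576,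
    5878344897642772707923038108025704152058857622234020576,
    37006805709217842097001894655760366690869587602702770576,
    57018400727086276402075613661792118323560017290202770576,
    6416681732575911260628859492828577978215473833171520576,
    57018398623733741019498622374487549287877339067546520576,
    7793115529168626683227162068180714518498676958171520576,
    6413771147420558986657228744991098315190571489421520576].any fun t =>
    l.all fun u => inj2_h88 (lab2_h88 t u 0) (lab2_h88 t u 1) (lab2_h88 t u 2) (lab2_h88 t u 3)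
        (lab2_h88 t u 4) && l.all fun v => pr2_h88 t u v

private theorem fin2_eq_h88 (l : List (Fin 5 → Fin 4)) : Four_fin l = fin2_h88 l := by
  simp only [Four_fin, fin2_h88, inj2_eq_h88, pr2_eq_h88]

private def go2_h88 : List (Fin 4 × Fin 4) → List (Fin 5 → Fin 4) → Bool
  | [], l => fin2_h88 l
  | p :: ps, l => [0, 1, 2, 3].all fun a => [0, 1, 2, 3].all fun b =>
      [0, 1, 2, 3].all fun c => !(l.all (ok2_h88 (Four_w p.1 p.2 a b c))) ||
        go2_h88 ps (l ++ [Four_w p.1 p.2 a b c])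

private theorem go2_eq_h88 (ps : List (Fin 4 × Fin 4)) (l : List (Fin 5 → Fin 4)) :
    Four_go ps l = go2_h88 ps l := by
  have e : List.finRange 4 = [0, 1, 2, 3] := by decide
  have e2 : Four_ok = ok2_h88 := funext fun u => funext fun v => ok2_eq_h88 u v
  induction ps generalizing l with
  | nil => exact fin2_eq_h88 l
  | cons p ps ih => simp only [Four_go, go2_h88, e, e2, ih]

theorem Four_run : Four_go [(0, 1), (1, 1), (2, 1), (3, 1), (0, 2), (1, 2), (2, 2), (3, 2),
    (0, 3), (1, 3), (2, 3), (3, 3)]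
    [Four_w 0 0 0 0 0, Four_w 1 0 1 1 1, Four_w 2 0 2 2 2, Four_w 3 0 3 3 3] = true := by
  rw [go2_eq_h88]
  decide +kernel

theorem Four_sound {F : Fin 4 × Fin 4 → Fin 5 → Fin 4}
    (h0 : ∀ p, Four_w p.1 p.2 (F p 2) (F p 3) (F p 4) = F p)
    (h1 : ∀ p q, Four_ok (F p) (F q) = true) (ps qs : List (Fin 4 × Fin 4))
    (h : Four_go ps (qs.map F) = true) : Four_fin ((qs ++ ps).map F) = true := by
  induction ps generalizing qs with
  | nil => rwa [List.append_nil]
  | cons p ps ih =>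
    simp only [Four_go, List.all_eq_true] at h
    have h2 := h (F p 2) (List.mem_finRange _) (F p 3) (List.mem_finRange _) (F p 4)
      (List.mem_finRange _)
    rw [h0, List.all_eq_true.2 fun u hu => by
      obtain ⟨q, -, rfl⟩ := List.mem_map.1 hu
      exact h1 p q] at h2
    simpa using ih (qs ++ [p]) (by simpa using h2)

theorem Four_core {F : Fin 4 × Fin 4 → Fin 5 → Fin 4} (h0 : ∀ p, F p 0 = p.1)
    (h1 : ∀ p, F p 1 = p.2) (h2 : ∀ x j, j ≠ 1 → F (x, 0) j = x)
    (h3 : ∀ p q d e, d ≠ e → F p d = F q d → F p e = F q e → p = q) : ∃ s, Labels F s := by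
  have k0 : ∀ p, Four_w p.1 p.2 (F p 2) (F p 3) (F p 4) = F p := fun p => by
    rw [← h0, ← h1]
    funext d
    fin_cases d <;> rfl
  have k1 := Four_sound k0 (fun p q => decide_eq_true fun d e1 e e2 =>
    (eq_or_ne d e).imp_right fun k => h3 p q d e k e1 e2 ▸ ⟨rfl, rfl⟩) _
    [(0, 0), (1, 0), (2, 0), (3, 0)] (by
      simp only [List.map_cons, List.map_nil, ← k0 (_, 0), ne_eq, Fin.reduceEq, not_false_eq_true,
        h2]
      exact Four_run)
  simp only [Four_fin, List.any_eq_true, List.all_eq_true, Bool.and_eq_true, decide_eq_true_eq,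
    List.forall_mem_map] at k1
  obtain ⟨t, -, ht⟩ := k1
  have k2 : ∀ p : Fin 4 × Fin 4, p ∈ [(0, 0), (1, 0), (2, 0), (3, 0)] ++ [(0, 1), (1, 1), (2, 1),
      (3, 1), (0, 2), (1, 2), (2, 2), (3, 2), (0, 3), (1, 3), (2, 3), (3, 3)] := by decide
  exact ⟨fun p => Four_lab t (F p), fun p => (ht p (k2 p)).1.1, fun p => (ht p (k2 p)).1.2,
    fun p q d e1 e2 => h3 p q 0 1 (by decide) ((ht p (k2 p)).2 q (k2 q) d e1 e2).1
      ((ht p (k2 p)).2 q (k2 q) d e1 e2).2⟩

/-- Order four. -/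
theorem four {Pt D Ln : Type} [Fintype Pt] [Fintype D] {ln : Pt → D → Ln} (h : Net ln)
    (hP : Fintype.card Pt = 16) (hD : Fintype.card D = 5) : ∃ s, Labels ln s := by
  have u : ∀ {X Y d e}, d ≠ e → ln X d = ln Y d → ln X e = ln Y e → X = Y := fun k e1 e2 =>
    (h.meet _ _ _ _ k).unique ⟨e1, e2⟩ ⟨rfl, rfl⟩
  let δ : Fin 5 ≃ D := (Fintype.equivFinOfCardEq hD).symm
  have n1 : ∀ d e : Fin 5, d ≠ e → Nat.card (Set.range (ln · (δ d))) *
      Nat.card (Set.range (ln · (δ e))) = 16 := fun d e k => by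
    rw [← Nat.card_prod, ← hP, ← Nat.card_eq_fintype_card]
    refine (Nat.card_eq_of_bijective (fun P => (⟨_, P, rfl⟩, ⟨_, P, rfl⟩))
      ⟨fun P Q e1 => ?_, ?_⟩).symm
    · exact u (δ.injective.ne k) (congrArg (·.1.1) e1) (congrArg (·.2.1) e1)
    · rintro ⟨⟨_, P, rfl⟩, _, Q, rfl⟩
      obtain ⟨X, ⟨e1, e2⟩, -⟩ := h.meet P Q _ _ (δ.injective.ne k)
      exact ⟨X, Prod.ext (Subtype.ext e1) (Subtype.ext e2)⟩
  have n2 : ∀ d : Fin 5, Nat.card (Set.range (ln · (δ d))) = 4 := fun d => by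
    have k : ∀ d : Fin 5, d ≠ d + 1 ∧ d ≠ d + 2 ∧ d + 1 ≠ d + 2 := by decide
    have e1 := n1 _ _ (k d).1
    have e2 := n1 _ _ (k d).2.1
    have e3 := n1 _ _ (k d).2.2
    have e4 := congrArg₂ (· * ·) e1 e2
    simp only [mul_mul_mul_comm _ _ (Nat.card (Set.range (ln · (δ d)))), e3] at e4
    exact Nat.mul_self_inj.1 (by omega)
  let c : Pt → Fin 5 → Fin 4 := fun P d => Finite.equivFinOfCardEq (n2 d) ⟨_, P, rfl⟩
  have hc : ∀ P Q d, c P d = c Q d ↔ ln P (δ d) = ln Q (δ d) := fun P Q d =>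
    (Equiv.apply_eq_iff_eq _).trans Subtype.ext_iff
  have u' : ∀ {X Y d e}, d ≠ e → c X d = c Y d → c X e = c Y e → X = Y := fun k e1 e2 =>
    u (δ.injective.ne k) ((hc _ _ _).1 e1) ((hc _ _ _).1 e2)
  let E : Pt ≃ Fin 4 × Fin 4 := Equiv.ofBijective (fun P => (c P 0, c P 1))
    ((Fintype.bijective_iff_injective_and_card _).2 ⟨fun P Q e =>
      u' (by decide) (congrArg Prod.fst e) (congrArg Prod.snd e), hP⟩)
  have E0 : ∀ p, c (E.symm p) 0 = p.1 := fun p => congrArg Prod.fst (E.apply_symm_apply p)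
  have E1 : ∀ p, c (E.symm p) 1 = p.2 := fun p => congrArg Prod.snd (E.apply_symm_apply p)
  have : ∀ j : Fin 5, ∃ τ : Fin 4 → Fin 4, Injective τ ∧
      (j ≠ 1 → ∀ x, τ (c (E.symm (x, 0)) j) = x) ∧ (j = 1 → τ = id) := fun j => by
    by_cases k : j = 1
    · exact ⟨id, injective_id, fun e => absurd k e, fun _ => rfl⟩
    · let τ := Equiv.ofBijective (fun x => c (E.symm (x, 0)) j)
        (Finite.injective_iff_bijective.1 fun x y e => congrArg Prod.fst
          (E.symm.injective (u' k e ((E1 (x, 0)).trans (E1 (y, 0)).symm))))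
      exact ⟨τ.symm, τ.symm.injective, fun _ => τ.symm_apply_apply, fun e => absurd e k⟩
  choose τ t1 t2 t3 using this
  obtain ⟨s, s1, s2, s3⟩ := Four_core (F := fun p j => τ j (c (E.symm p) j))
    (fun p => (congrArg _ ((E0 p).trans (E0 (p.1, 0)).symm)).trans (t2 0 (by decide) p.1))
    (fun p => by rw [t3 1 rfl, E1, id]) (fun x j k => t2 j k x)
    fun p q d e k e1 e2 => E.symm.injective (u' k (t1 d e1) (t1 e e2))
  refine ⟨fun P d => δ (s (E P) (δ.symm d)),
    fun P => δ.injective.comp ((s1 _).comp δ.symm.injective),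
    fun P d e => s2 _ _ (δ.eq_symm_apply.2 e), fun P Q d e1 e2 =>
      E.injective (s3 _ _ _ (congrArg (τ _) ?_) (δ.injective e2))⟩
  rwa [E.symm_apply_apply, E.symm_apply_apply, hc, δ.apply_symm_apply]

end Pool.Agent.Work.MP_394e0d_co.B
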