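import Pool.Agent.Work.MP_394e0d_co.B.Uta
import Mathlib
import Pool.Agent.Work.MP_394e0d_co.Defs
import Pool.Agent.Work.MP_394e0d_co.B.Four

-- merged part: Pool.Agent.Work.MP_394e0d_co.B.Six
section
namespace Pool.Agent.Work.MP_394e0d_co.B

/-- Elimination step of the Bruck-Ryser argument. -/
theorem six_elim (n : ℕ) (f : (Fin (n + 1) → ℚ) →ₗ[ℚ] (Fin n → ℚ)) :
    ∃ y : Fin (n + 1) → ℚ, y (Fin.last n) = 1 ∧ ∀ b, f y b ^ 2 = y b.castSucc ^ 2 := by
  induction n with
  | zero => exact ⟨fun _ => 1, rfl, fun b => b.elim0⟩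
  | succ n ih =>
    obtain ⟨ε, h1, h2⟩ : ∃ ε : ℚ, ε ^ 2 = 1 ∧ ε - f (Pi.single 0 1) 0 ≠ 0 := by
      by_cases hc : f (Pi.single 0 1) 0 = 1
      · exact ⟨-1, by norm_num, by rw [hc]; norm_num⟩
      · exact ⟨1, by norm_num, fun h => hc (by linarith)⟩
    let e0 : (Fin (n + 1) → ℚ) →ₗ[ℚ] (Fin (n + 2) → ℚ) := LinearMap.vecCons 0 LinearMap.id
    let L : (Fin (n + 1) → ℚ) →ₗ[ℚ] ℚ :=
      (ε - f (Pi.single 0 1) 0)⁻¹ • ((LinearMap.proj 0).comp (f.comp e0))
    let φ : (Fin (n + 1) → ℚ) →ₗ[ℚ] (Fin (n + 2) → ℚ) := LinearMap.vecCons L LinearMap.id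
    obtain ⟨z, hz, hb⟩ := ih ((LinearMap.funLeft ℚ ℚ Fin.succ).comp (f.comp φ))
    have p0 : φ z 0 = L z := rfl
    have ps : ∀ i : Fin (n + 1), φ z i.succ = z i := fun _ => rfl
    have hφ : φ z = L z • Pi.single 0 1 + e0 z := by
      funext i
      refine Fin.cases ?_ (fun i => ?_) i
      · have e : e0 z 0 = 0 := rfl
        rw [p0, Pi.add_apply, e]
        simp
      · have e : e0 z i.succ = z i := rfl
        rw [ps, Pi.add_apply, e]
        simp
    have hL : (ε - f (Pi.single 0 1) 0) * L z = f (e0 z) 0 := by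
      have e : L z = (ε - f (Pi.single 0 1) 0)⁻¹ * f (e0 z) 0 := rfl
      rw [e, mul_inv_cancel_left₀ h2]
    have h0 : f (φ z) 0 = ε * L z := by
      rw [hφ, map_add, map_smul, Pi.add_apply, Pi.smul_apply, smul_eq_mul, ← hL]
      ring
    refine ⟨φ z, by rw [← Fin.succ_last, ps, hz], fun b => ?_⟩
    refine Fin.cases ?_ (fun b => ?_) b
    · rw [h0, Fin.castSucc_zero, p0, mul_pow, h1, one_mul]
    · rw [← Fin.succ_castSucc, ps]
      exact hb b

theorem six_int (n : ℕ) : ∀ x y z : ℤ, y.natAbs = n → 6 * x ^ 2 = y ^ 2 + z ^ 2 → y = 0 := by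
  induction n using Nat.strong_induction_on with
  | _ n ih =>
    intro x y z hn h
    have k : ∀ a b : ZMod 3, a ^ 2 + b ^ 2 = 0 → a = 0 ∧ b = 0 := by decide
    have h3 : (y : ZMod 3) ^ 2 + (z : ZMod 3) ^ 2 = 0 := by
      have e := congrArg (Int.cast : ℤ → ZMod 3) h
      push_cast at e
      have e6 : (6 : ZMod 3) = 0 := by decide
      rw [← e, e6, zero_mul]
    obtain ⟨y', rfl⟩ := (ZMod.intCast_zmod_eq_zero_iff_dvd y 3).1 (k _ _ h3).1
    obtain ⟨z', rfl⟩ := (ZMod.intCast_zmod_eq_zero_iff_dvd z 3).1 (k _ _ h3).2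
    push_cast at h hn ⊢
    have hx : (3 : ℤ) ∣ x ^ 2 := ⟨x ^ 2 - (y' ^ 2 + z' ^ 2), by linarith⟩
    obtain ⟨x', rfl⟩ := Int.prime_three.dvd_of_dvd_pow hx
    by_contra h0
    have h1 : y' ≠ 0 := fun e => h0 (by rw [e, mul_zero])
    exact h1 (ih y'.natAbs (by omega) x' y' z' rfl (by linarith))

theorem six_rat (t w : ℚ) : 6 * t ^ 2 ≠ 1 + w ^ 2 := by
  intro h
  have ht : (t.den : ℚ) ≠ 0 := Nat.cast_ne_zero.2 t.den_nz
  have hw : (w.den : ℚ) ≠ 0 := Nat.cast_ne_zero.2 w.den_nz
  have e1 : (t.num : ℚ) = t * t.den := (Rat.mul_den_eq_num t).symm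
  have e2 : (w.num : ℚ) = w * w.den := (Rat.mul_den_eq_num w).symm
  have e : 6 * (t.num * (w.den : ℤ)) ^ 2 =
      ((t.den : ℤ) * (w.den : ℤ)) ^ 2 + (w.num * (t.den : ℤ)) ^ 2 := by
    have e3 : (6 : ℚ) * (t.num * (w.den : ℚ)) ^ 2 =
        ((t.den : ℚ) * (w.den : ℚ)) ^ 2 + (w.num * (t.den : ℚ)) ^ 2 := by
      rw [e1, e2]
      linear_combination ((t.den : ℚ) * (w.den : ℚ)) ^ 2 * h
    exact_mod_cast e3
  have h0 := six_int _ _ _ _ rfl e
  have h1 : (t.den : ℚ) * (w.den : ℚ) = 0 := by exact_mod_cast h0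
  exact mul_ne_zero ht hw h1

theorem six_quad : ∃ U : (Fin 44 → ℚ) →ₗ[ℚ] (Fin 44 → ℚ),
    ∀ y, 6 * ∑ i, U y i ^ 2 = ∑ i, y i ^ 2 := by
  obtain ⟨e⟩ : Nonempty (Fin 11 × Fin 4 ≃ Fin 44) := ⟨Fintype.equivFinOfCardEq (by simp)⟩
  let H : Fin 4 → Fin 4 → ℚ := ![![2, -1, -1, 0], ![1, 2, 0, 1], ![1, 0, 2, -1], ![0, -1, 1, 2]]
  refine ⟨LinearMap.pi fun i => ∑ l, (H (e.symm i).2 l / 6) •
    LinearMap.proj (e ((e.symm i).1, l)), fun y => ?_⟩
  rw [← e.sum_comp, ← e.sum_comp, Fintype.sum_prod_type, Fintype.sum_prod_type, Finset.mul_sum]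
  refine Finset.sum_congr rfl fun k _ => ?_
  simp only [LinearMap.pi_apply, LinearMap.smul_apply, LinearMap.proj_apply,
    Equiv.symm_apply_apply, Fin.sum_univ_four, smul_eq_mul, LinearMap.add_apply]
  simp only [H, Matrix.cons_val_zero, Matrix.cons_val_one, Matrix.cons_val]
  ring

/-- No quadratic identity of the kind given by a projective plane of order six. -/
theorem six_form {I J : Type} [Fintype I] [Fintype J] (hI : Fintype.card I = 43)
    (hJ : Fintype.card J = 43) (f : (J → ℚ) →ₗ[ℚ] (I → ℚ))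
    (hf : ∀ x, ∑ b, f x b ^ 2 = 6 * ∑ j, x j ^ 2 + (∑ j, x j) ^ 2) : False := by
  obtain ⟨U, hU⟩ := six_quad
  let eI := Fintype.equivFinOfCardEq hI
  let eJ := Fintype.equivFinOfCardEq hJ
  let X : (Fin 44 → ℚ) →ₗ[ℚ] (J → ℚ) := (LinearMap.funLeft ℚ ℚ fun j => (eJ j).castSucc).comp U
  obtain ⟨y, h1, h2⟩ := six_elim 43 ((LinearMap.funLeft ℚ ℚ eI.symm).comp (f.comp X))
  have a1 : ∑ b, f (X y) b ^ 2 = ∑ b : Fin 43, y b.castSucc ^ 2 := by
    rw [← eI.symm.sum_comp]
    exact Finset.sum_congr rfl fun b _ => h2 b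
  have a2 : ∑ j, X y j ^ 2 = ∑ b : Fin 43, U y b.castSucc ^ 2 :=
    eJ.sum_comp fun b => U y b.castSucc ^ 2
  have a3 := hU y
  rw [Fin.sum_univ_castSucc, Fin.sum_univ_castSucc (fun i => y i ^ 2), h1] at a3
  have a4 := hf (X y)
  exact six_rat (U y (Fin.last 43)) (∑ j, X y j) (by linarith)

theorem six_lines {Pt D Ln : Type} [Fintype Pt] [Fintype D] [DecidableEq Ln] {ln : Pt → D → Ln}
    (h : Net ln) (hP : Fintype.card Pt = 36) (hD : Fintype.card D = 7) (d : D) :
    (Finset.univ.image fun P => ln P d).card = 6 := by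
  classical
  have k : ∀ d e, d ≠ e → (Finset.univ.image fun P => ln P d).card *
      (Finset.univ.image fun P => ln P e).card = 36 := by
    intro d e hde
    rw [← Finset.card_product, ← hP, ← Finset.card_univ]
    refine (Finset.card_bij (fun X _ => (ln X d, ln X e)) (fun X _ => ?_) (fun X _ Y _ hXY => ?_)
      fun p hp => ?_).symm
    · exact Finset.mem_product.2 ⟨Finset.mem_image_of_mem _ (Finset.mem_univ X),
        Finset.mem_image_of_mem (fun P => ln P e) (Finset.mem_univ X)⟩
    · exact (h.meet Y Y d e hde).unique ⟨congrArg Prod.fst hXY, congrArg Prod.snd hXY⟩ ⟨rfl, rfl⟩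
    · obtain ⟨P, -, h1⟩ := Finset.mem_image.1 (Finset.mem_product.1 hp).1
      obtain ⟨Q, -, h2⟩ := Finset.mem_image.1 (Finset.mem_product.1 hp).2
      obtain ⟨X, h3, h4⟩ := (h.meet P Q d e hde).exists
      exact ⟨X, Finset.mem_univ X, Prod.ext (h3.trans h1) (h4.trans h2)⟩
  have hc : 1 < (Finset.univ.erase d).card := by
    rw [Finset.card_erase_of_mem (Finset.mem_univ d), Finset.card_univ, hD]
    norm_num
  obtain ⟨a, ha, b, hb, hab⟩ := Finset.one_lt_card.1 hc
  have k1 := k d a (Finset.ne_of_mem_erase ha).symm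
  have k2 := k d b (Finset.ne_of_mem_erase hb).symm
  have k3 := k a b hab
  generalize (Finset.univ.image fun P => ln P d).card = u at k1 k2
  generalize (Finset.univ.image fun P => ln P a).card = v at k1 k3
  generalize (Finset.univ.image fun P => ln P b).card = w at k2 k3
  have k4 : u * u * 36 = 36 * 36 := by
    calc u * u * 36 = u * u * (v * w) := by rw [k3]
      _ = u * v * (u * w) := by ring
      _ = 36 * 36 := by rw [k1, k2]
  have k5 : u * u = 6 * 6 := by omega
  exact Nat.mul_self_inj.1 k5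

theorem six_dir {Pt Ln : Type} [Fintype Pt] [DecidableEq Ln] (g : Pt → Ln)
    (hg : (Finset.univ.image g).card = 6) (x : Pt → ℚ) (z : ℚ) :
    ∑ l ∈ Finset.univ.image g, (z + ∑ P with g P = l, x P) ^ 2 =
      6 * z ^ 2 + 2 * z * ∑ P, x P + ∑ P, x P * ∑ Q with g Q = g P, x Q := by
  have m : ∀ P ∈ (Finset.univ : Finset Pt), g P ∈ Finset.univ.image g := fun P hP =>
    Finset.mem_image_of_mem g hP
  rw [← Finset.sum_fiberwise_of_maps_to m x,
    ← Finset.sum_fiberwise_of_maps_to m fun P => x P * ∑ Q with g Q = g P, x Q, Finset.mul_sum]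
  have e : 6 * z ^ 2 = ∑ _l ∈ Finset.univ.image g, z ^ 2 := by
    rw [Finset.sum_const, hg, nsmul_eq_mul]
    norm_num
  rw [e, ← Finset.sum_add_distrib, ← Finset.sum_add_distrib]
  refine Finset.sum_congr rfl fun l _ => ?_
  have e2 : ∑ P with g P = l, x P * ∑ Q with g Q = g P, x Q =
      (∑ P with g P = l, x P) * ∑ Q with g Q = l, x Q := by
    rw [Finset.sum_mul]
    refine Finset.sum_congr rfl fun P hP => ?_
    rw [(Finset.mem_filter.1 hP).2]
  rw [e2]
  ring

theorem six_join {Pt D Ln : Type} [Fintype Pt] [Fintype D] [DecidableEq Ln] {ln : Pt → D → Ln}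
    (h : Net ln) (hD : Fintype.card D = 7) (x : Pt → ℚ) (P : Pt) :
    ∑ d, ∑ Q with ln Q d = ln P d, x Q = 6 * x P + ∑ Q, x Q := by
  classical
  have e : ∀ Q, ∑ d, (if ln Q d = ln P d then x Q else 0) =
      (if Q = P then 6 * x Q else 0) + x Q := by
    intro Q
    by_cases hQ : Q = P
    · subst hQ
      simp only [if_true, Finset.sum_const, Finset.card_univ, hD, nsmul_eq_mul]
      push_cast
      ring
    · obtain ⟨d, h1, h2⟩ := h.join Q P hQ
      rw [if_neg hQ, zero_add, Finset.sum_eq_single d, if_pos h1]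
      · exact fun b _ hb => if_neg fun h3 => hb (h2 b h3)
      · exact fun h3 => absurd (Finset.mem_univ d) h3
  simp only [Finset.sum_filter]
  rw [Finset.sum_comm]
  simp only [e, Finset.sum_add_distrib, Finset.sum_ite_eq', Finset.mem_univ, if_true]

/-- There is no affine plane of order six. -/
theorem six {Pt D Ln : Type} [Fintype Pt] [Fintype D] {ln : Pt → D → Ln} (h : Net ln)
    (hP : Fintype.card Pt = 36) (hD : Fintype.card D = 7) : False := by
  classical
  have hL := six_lines h hP hD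
  refine six_form (I := Option (Σ d : D, ↥(Finset.univ.image fun P => ln P d))) (J := Pt ⊕ D)
    ?_ ?_ (LinearMap.pi fun b => b.elim (∑ d, LinearMap.proj (Sum.inr d))
      fun p => LinearMap.proj (Sum.inr p.1) +
        ∑ P with ln P p.1 = p.2.1, LinearMap.proj (Sum.inl P)) fun x => ?_
  · simp only [Fintype.card_option, Fintype.card_sigma, Fintype.card_coe, hL, Finset.sum_const,
      Finset.card_univ, hD, smul_eq_mul]
  · rw [Fintype.card_sum, hP, hD]
  · rw [Fintype.sum_option, Fintype.sum_sigma, Fintype.sum_sum_type, Fintype.sum_sum_type]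
    simp only [LinearMap.pi_apply, Option.elim_none, Option.elim_some, LinearMap.sum_apply,
      LinearMap.add_apply, LinearMap.proj_apply]
    have e : ∀ d, ∑ l : ↥(Finset.univ.image fun P => ln P d),
        (x (Sum.inr d) + ∑ P with ln P d = l.1, x (Sum.inl P)) ^ 2 =
        6 * x (Sum.inr d) ^ 2 + 2 * x (Sum.inr d) * ∑ P, x (Sum.inl P) +
          ∑ P, x (Sum.inl P) * ∑ Q with ln Q d = ln P d, x (Sum.inl Q) := fun d =>
      (Finset.sum_coe_sort (Finset.univ.image fun P => ln P d)
        fun l => (x (Sum.inr d) + ∑ P with ln P d = l, x (Sum.inl P)) ^ 2).trans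
        (six_dir (fun P => ln P d) (hL d) (fun P => x (Sum.inl P)) _)
    have e2 : ∑ d, ∑ P, x (Sum.inl P) * ∑ Q with ln Q d = ln P d, x (Sum.inl Q) =
        6 * ∑ P, x (Sum.inl P) ^ 2 + (∑ P, x (Sum.inl P)) ^ 2 := by
      rw [Finset.sum_comm, sq (∑ P, x (Sum.inl P)), Finset.sum_mul, Finset.mul_sum,
        ← Finset.sum_add_distrib]
      refine Finset.sum_congr rfl fun P _ => ?_
      rw [← Finset.mul_sum, six_join h hD (fun Q => x (Sum.inl Q)) P]
      ring
    simp only [e, Finset.sum_add_distrib]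
    rw [e2, ← Finset.mul_sum, ← Finset.sum_mul, ← Finset.mul_sum]
    ring

end Pool.Agent.Work.MP_394e0d_co.B
end

-- merged part: Pool.Agent.Work.MP_394e0d_co.Tau
section
namespace Pool.Agent.Work.MP_394e0d_co

variable {F : Type} [Field F]

/-- The intercept of the line through `P` with direction `d`. -/
def icpt (P : F × F) : Option F → F
  | none => P.1
  | some m => P.2 - m * P.1

/-- A system of derangements of the directions, one for each point of the affine plane, which is
injective along each line. -/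
def Good (τ : F × F → Option F → Option F) : Prop :=
  (∀ P, Function.Injective (τ P)) ∧ (∀ P d, τ P d ≠ d) ∧
    ∀ d P Q, icpt P d = icpt Q d → τ P d = τ Q d → P = Q

open Classical in
/-- The system in odd characteristic. -/
noncomputable def tauOdd (P : F × F) : Option F → Option F
  | none => some (2 * (P.2 - P.1 ^ 2 - P.1))
  | some m => if m = 2 * P.1 then none else if m = P.2 - P.1 ^ 2 then some (2 * P.1)
      else some (2 * m - 2 * P.1)

lemma good_odd (h2 : (2 : F) ≠ 0) : Good (tauOdd (F := F)) := by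
  refine ⟨?_, ?_, ?_⟩
  · rintro ⟨x, y⟩ (_ | m) (_ | m') h <;> simp only [tauOdd] at h
    · rfl
    · grind
    · grind
    · have : m = m' := by grind
      rw [this]
  · rintro ⟨x, y⟩ (_ | m) h <;> simp only [tauOdd] at h <;> grind
  · rintro (_ | m) ⟨x, y⟩ ⟨x', y'⟩ h1 h <;> simp only [tauOdd, icpt] at h h1
    · have : y = y' := by grind
      rw [h1, this]
    · have hx : x = x' := by grind
      have : y = y' := by grind
      rw [hx, this]

open Classical in
/-- The Latin square underlying the system in characteristic two; here `x = (1 + a) u`. -/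
noncomputable def baseEven (a u m : F) : Option F :=
  if m = u then none else if m = 0 then some u else some ((1 + a) * u + a * m)

open Classical in
/-- The system in characteristic two, in terms of `u = x / (1 + a)` and
`s = sqrt (a y + x ^ 2)`. -/
noncomputable def tauEven' (a u s : F) : Option F → Option F
  | none => if s = u then some ((1 + a) * u) else if s = (1 + a) * u then some u
      else if s = 0 then some ((1 + a) * ((1 + a) * u)) else some ((1 + a) * u + a * s)
  | some m => if s = u then baseEven a u m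
      else if s = (1 + a) * u then (if m = 0 then some ((1 + a) * u) else baseEven a u m)
      else if s = 0 then (if m = (1 + a) * u then none else if m = u then some ((1 + a) * u)
        else baseEven a u m)
      else if m = s then some ((1 + a) * u) else baseEven a u m

private lemma even_cases_h88 (a : F) (ha : a ≠ 0) (hb : 1 + a ≠ 0) (u s m : F) :
    (tauEven' a u s (some m) = none ∧
      (m = u ∧ (s ≠ 0 ∨ u = 0) ∨ s = 0 ∧ u ≠ 0 ∧ m = (1 + a) * u)) ∨
    (tauEven' a u s (some m) = some u ∧ m = 0 ∧ u ≠ 0 ∧ s ≠ (1 + a) * u) ∨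
    (tauEven' a u s (some m) = some ((1 + a) * u) ∧
      (s = (1 + a) * u ∧ u ≠ 0 ∧ m = 0 ∨ s = 0 ∧ u ≠ 0 ∧ m = u ∨
        m = s ∧ s ≠ u ∧ s ≠ (1 + a) * u ∧ s ≠ 0)) ∨
    (tauEven' a u s (some m) = some ((1 + a) * u + a * m) ∧ m ≠ u ∧ m ≠ 0 ∧
      (s = (1 + a) * u ∨ m ≠ s) ∧ (s ≠ 0 ∨ m ≠ (1 + a) * u)) := by
  simp only [tauEven', baseEven]
  split_ifs <;> grind

lemma even_inj [CharP F 2] (a : F) (ha : a ≠ 0) (hb : 1 + a ≠ 0) (u s : F) :
    Function.Injective (tauEven' a u s) := by
  rintro (_ | m) (_ | m') h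
  · rfl
  · rcases even_cases_h88 a ha hb u s m' with ⟨e, k⟩ | ⟨e, k⟩ | ⟨e, k⟩ | ⟨e, k⟩ <;> rw [e] at h <;>
      clear e <;> simp only [tauEven'] at h <;> split_ifs at h <;> grind
  · rcases even_cases_h88 a ha hb u s m with ⟨e, k⟩ | ⟨e, k⟩ | ⟨e, k⟩ | ⟨e, k⟩ <;> rw [e] at h <;>
      clear e <;> simp only [tauEven'] at h <;> split_ifs at h <;> grind
  · have : m = m' := by
      rcases even_cases_h88 a ha hb u s m with ⟨e, k⟩ | ⟨e, k⟩ | ⟨e, k⟩ | ⟨e, k⟩ <;>
        rcases even_cases_h88 a ha hb u s m' with ⟨e', k'⟩ | ⟨e', k'⟩ | ⟨e', k'⟩ | ⟨e', k'⟩ <;>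
        rw [e, e'] at h <;> clear e e' <;> grind
    rw [this]

lemma even_ne [CharP F 2] (a : F) (ha : a ≠ 0) (hb : 1 + a ≠ 0) (u s : F) (d : Option F) :
    tauEven' a u s d ≠ d := by
  rcases d with _ | m <;> intro h <;> simp only [tauEven', baseEven] at h <;>
    split_ifs at h <;> grind

lemma even_none [CharP F 2] (a : F) (ha : a ≠ 0) (hb : 1 + a ≠ 0) (u s s' : F)
    (h : tauEven' a u s none = tauEven' a u s' none) : s = s' := by
  simp only [tauEven'] at h
  split_ifs at h <;> grind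

lemma even_some [CharP F 2] (a : F) (ha : a ≠ 0) (hb : 1 + a ≠ 0) (u s u' s' m : F)
    (hs : s ^ 2 + s' ^ 2 = ((1 + a) * (u + u')) ^ 2 + a * m * ((1 + a) * (u + u')))
    (h : tauEven' a u s (some m) = tauEven' a u' s' (some m)) : u = u' := by
  rcases even_cases_h88 a ha hb u s m with ⟨e, k⟩ | ⟨e, k⟩ | ⟨e, k⟩ | ⟨e, k⟩ <;>
    rcases even_cases_h88 a ha hb u' s' m with ⟨e', k'⟩ | ⟨e', k'⟩ | ⟨e', k'⟩ | ⟨e', k'⟩ <;>
    rw [e, e'] at h <;> clear e e' <;> grind

end Pool.Agent.Work.MP_394e0d_co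
end

-- merged part: Pool.Agent.Work.MP_394e0d_co.Main
section
namespace Pool.Agent.Work.MP_394e0d_co

variable {F : Type} [Field F]

lemma exists_good_even [Finite F] [CharP F 2] (a : F) (ha : a ≠ 0) (hb : 1 + a ≠ 0) :
    ∃ τ : F × F → Option F → Option F, Good τ := by
  have hinj : Function.Injective fun t : F => t ^ 2 := by
    intro s t h
    have : (s - t) ^ 2 = 0 := by
      have h' : s ^ 2 = t ^ 2 := h
      grind
    exact sub_eq_zero.mp (pow_eq_zero_iff (by norm_num) |>.mp this)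
  obtain ⟨r, hr⟩ := (Finite.surjective_of_injective hinj).hasRightInverse
  have hr' : ∀ t, r t ^ 2 = t := hr
  refine ⟨fun P => tauEven' a (P.1 / (1 + a)) (r (a * P.2 + P.1 ^ 2)),
    fun P => even_inj a ha hb _ _, fun P d => even_ne a ha hb _ _ d, ?_⟩
  rintro (_ | m) ⟨x, y⟩ ⟨x', y'⟩ h1 h
  · simp only [icpt] at h1
    subst h1
    have h2 := even_none a ha hb _ _ _ h
    have h3 := congrArg (fun t => t ^ 2) h2
    simp only [hr'] at h3
    have : y = y' := by grind
    rw [this]
  · simp only [icpt] at h1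
    have h2 := even_some a ha hb _ _ _ _ m (by
      rw [hr', hr']
      have e : (1 + a) * (x / (1 + a) + x' / (1 + a)) = x + x' := by field_simp
      rw [e]
      grind) h
    have hx : x = x' := by
      have := congrArg (fun t => t * (1 + a)) h2
      simpa [hb] using this
    have : y = y' := by grind
    rw [hx, this]

lemma exists_good [Finite F] (h : 2 < Nat.card F) :
    ∃ τ : F × F → Option F → Option F, Good τ := by
  by_cases h2 : (2 : F) = 0
  · have : CharP F 2 := CharTwo.of_one_ne_zero_of_two_eq_zero one_ne_zero h2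
    obtain ⟨a, ha0, ha1⟩ : ∃ a : F, a ≠ 0 ∧ a ≠ 1 := by
      by_contra hcon
      push Not at hcon
      have hsub : (Set.univ : Set F) ⊆ {0, 1} := by
        intro a _
        by_cases h0 : a = 0
        · exact Or.inl h0
        · exact Or.inr (hcon a h0)
      have h3 := Set.ncard_le_ncard hsub
      rw [Set.ncard_univ, Set.ncard_pair zero_ne_one] at h3
      omega
    refine exists_good_even a ha0 fun hb => ha1 ?_
    grind
  · exact ⟨_, good_odd h2⟩

lemma icpt_fiber (d : Option F) (k : F) : {P : F × F | icpt P d = k}.ncard = Nat.card F := by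
  rcases d with _ | m
  · have : {P : F × F | icpt P none = k} = Set.range fun y : F => (k, y) := by
      ext ⟨x, y⟩
      simp [icpt, eq_comm]
    rw [this, Set.ncard_range_of_injective]
    intro y y' h
    exact congrArg Prod.snd h
  · have : {P : F × F | icpt P (some m) = k} = Set.range fun x : F => (x, k + m * x) := by
      ext ⟨x, y⟩
      simp only [icpt, Set.mem_ofPred_eq, Set.mem_range, Prod.mk.injEq, exists_eq_left]
      constructor <;> intro h <;> grind
    rw [this, Set.ncard_range_of_injective]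
    intro y y' h
    exact congrArg Prod.fst h

lemma icpt_unique (P Q : F × F) (h : P ≠ Q) : ∃ d, {d' | icpt P d' = icpt Q d'} = {d} := by
  obtain ⟨x, y⟩ := P
  obtain ⟨x', y'⟩ := Q
  by_cases hx : x = x'
  · have hy : y ≠ y' := fun hy => h (by rw [hx, hy])
    refine ⟨none, ?_⟩
    ext (_ | m)
    · simp [icpt, hx]
    · simp [icpt, hx, hy]
  · refine ⟨some ((y - y') / (x - x')), ?_⟩
    have hx' : x - x' ≠ 0 := sub_ne_zero.mpr hx
    ext (_ | m)
    · simp [icpt, hx]
    · simp only [icpt, Set.mem_ofPred_eq, Set.mem_singleton_iff, Option.some.injEq]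
      rw [eq_div_iff hx']
      constructor <;> intro h <;> grind

lemma exists_tripleArray [Finite F] (τ : F × F → Option F → Option F) (hτ : Good τ) :
    ∃ A : Option F → F × F → Option F × F, IsTripleArray A := by
  obtain ⟨h1, h2, h3⟩ := hτ
  let σ : F × F → Option F ≃ Option F := fun P =>
    Equiv.ofBijective (τ P) (Finite.injective_iff_bijective.mp (h1 P))
  have hσ : ∀ P d, σ P d = τ P d := fun _ _ => rfl
  have hσ' : ∀ P r, τ P ((σ P).symm r) = r := fun P r => (σ P).apply_symm_apply r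
  let A : Option F → F × F → Option F × F := fun r P => ((σ P).symm r, icpt P ((σ P).symm r))
  have hrow : ∀ r, Function.Injective fun P => A r P := by
    intro r P Q h
    have e1 : (σ P).symm r = (σ Q).symm r := congrArg Prod.fst h
    have e2 : icpt P ((σ P).symm r) = icpt Q ((σ Q).symm r) := congrArg Prod.snd h
    refine h3 ((σ P).symm r) P Q (by rw [e2, e1]) ?_
    rw [hσ', e1, hσ']
  have hcolset : ∀ P, Set.range (fun r => A r P) = {s | icpt P s.1 = s.2} := by
    intro P
    ext ⟨d, k⟩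
    simp only [Set.mem_range, Set.mem_ofPred_eq, A, Prod.mk.injEq]
    constructor
    · rintro ⟨r, rfl, rfl⟩
      rfl
    · rintro rfl
      exact ⟨σ P d, by simp, by simp⟩
  have hcardne : ∀ r : Option F, ({r}ᶜ : Set (Option F)).ncard = Nat.card F := by
    intro r
    have := Set.ncard_add_ncard_compl ({r} : Set (Option F))
    rw [Set.ncard_singleton, Finite.card_option] at this
    omega
  have hrowset : ∀ r, Set.range (fun P => A r P) = ({r}ᶜ : Set (Option F)) ×ˢ Set.univ := by
    intro r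
    apply Set.eq_of_subset_of_ncard_le
    · rintro _ ⟨P, rfl⟩
      refine ⟨?_, trivial⟩
      intro h
      have h' : (σ P).symm r = r := h
      exact h2 P r (by conv_lhs => rw [← h']; rw [hσ'])
    · rw [Set.ncard_prod, hcardne, Set.ncard_univ, Set.ncard_range_of_injective (hrow r),
        Nat.card_prod]
    · exact Set.toFinite _
  refine ⟨A, hrow, ?_, ⟨Nat.card F, ?_⟩, ⟨Nat.card F, ?_⟩,
    ⟨(Nat.card F - 1) * Nat.card F, ?_⟩, ⟨1, ?_⟩⟩
  · intro P r r' h
    exact (σ P).symm.injective (congrArg Prod.fst h)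
  · rintro ⟨d, k⟩
    have : {p : Option F × (F × F) | A p.1 p.2 = (d, k)} =
        (fun P => (τ P d, P)) '' {P | icpt P d = k} := by
      ext ⟨r, P⟩
      simp only [Set.mem_ofPred_eq, Set.mem_image, A, Prod.mk.injEq]
      constructor
      · rintro ⟨rfl, rfl⟩
        exact ⟨P, rfl, hσ' P r, rfl⟩
      · rintro ⟨Q, rfl, rfl, rfl⟩
        have : (σ Q).symm (τ Q d) = d := (σ Q).symm_apply_apply d
        rw [this]
        exact ⟨rfl, rfl⟩
    rw [this, Set.ncard_image_of_injective _ (fun P Q h => congrArg Prod.snd h), icpt_fiber]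
  · intro r P
    rw [hrowset, hcolset]
    have : (({r}ᶜ : Set (Option F)) ×ˢ (Set.univ : Set F)) ∩ {s | icpt P s.1 = s.2} =
        (fun d => (d, icpt P d)) '' ({r}ᶜ : Set (Option F)) := by
      ext ⟨d, k⟩
      simp only [Set.mem_inter_iff, Set.mem_prod, Set.mem_univ, and_true, Set.mem_ofPred_eq,
        Set.mem_image, Prod.mk.injEq]
      constructor
      · rintro ⟨h, rfl⟩
        exact ⟨d, h, rfl, rfl⟩
      · rintro ⟨d', h, rfl, rfl⟩
        exact ⟨h, rfl⟩
    rw [this, Set.ncard_image_of_injective _ (fun d d' h => congrArg Prod.fst h), hcardne]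
  · intro r r' hr
    rw [hrowset, hrowset, Set.prod_inter_prod, Set.inter_self, Set.ncard_prod, Set.ncard_univ,
      ← Set.compl_union]
    have := Set.ncard_add_ncard_compl (({r} : Set (Option F)) ∪ {r'})
    rw [Set.singleton_union, Set.ncard_pair hr, Finite.card_option] at this
    rw [Set.singleton_union]
    congr 1
    omega
  · intro P Q hPQ
    rw [hcolset, hcolset]
    obtain ⟨d, hd⟩ := icpt_unique P Q hPQ
    have : {s : Option F × F | icpt P s.1 = s.2} ∩ {s | icpt Q s.1 = s.2} = {(d, icpt P d)} := by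
      ext ⟨d', k⟩
      simp only [Set.mem_inter_iff, Set.mem_ofPred_eq, Set.mem_singleton_iff, Prod.mk.injEq]
      constructor
      · rintro ⟨rfl, h⟩
        have : d' ∈ {d' | icpt P d' = icpt Q d'} := h.symm
        rw [hd] at this
        obtain rfl : d' = d := this
        exact ⟨rfl, rfl⟩
      · rintro ⟨rfl, rfl⟩
        have : d' ∈ {d' | icpt P d' = icpt Q d'} := by rw [hd]; rfl
        exact ⟨rfl, (show icpt P d' = icpt Q d' from this).symm⟩
    rw [this, Set.ncard_singleton]

lemma IsTripleArray.transport {R C V R' C' V' : Type} {A : R → C → V} (hA : IsTripleArray A)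
    (eR : R' ≃ R) (eC : C' ≃ C) (eV : V ≃ V') :
    IsTripleArray fun i j => eV (A (eR i) (eC j)) := by
  obtain ⟨h1, h2, ⟨e, h3⟩, ⟨a, h4⟩, ⟨b, h5⟩, ⟨c, h6⟩⟩ := hA
  have hrow : ∀ i, Set.range (fun j => eV (A (eR i) (eC j))) =
      eV '' Set.range fun j => A (eR i) j := by
    intro i
    ext s
    simp only [Set.mem_range, Set.mem_image, exists_exists_eq_and]
    exact eC.exists_congr_left.trans (by simp)
  have hcol : ∀ j, Set.range (fun i => eV (A (eR i) (eC j))) =
      eV '' Set.range fun i => A i (eC j) := by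
    intro j
    ext s
    simp only [Set.mem_range, Set.mem_image, exists_exists_eq_and]
    exact eR.exists_congr_left.trans (by simp)
  refine ⟨fun i j j' h => eC.injective (h1 _ (eV.injective h)),
    fun j i i' h => eR.injective (h2 _ (eV.injective h)), ⟨e, fun s => ?_⟩, ⟨a, fun i j => ?_⟩,
    ⟨b, fun i i' h => ?_⟩, ⟨c, fun j j' h => ?_⟩⟩
  · rw [← h3 (eV.symm s)]
    refine Set.ncard_congr (fun p _ => (eR p.1, eC p.2)) ?_ ?_ ?_
    · intro p hp
      simp only [Set.mem_ofPred_eq] at hp ⊢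
      rw [← hp]
      simp
    · intro p q _ _ h
      exact Prod.ext (eR.injective (congrArg Prod.fst h)) (eC.injective (congrArg Prod.snd h))
    · intro p hp
      refine ⟨(eR.symm p.1, eC.symm p.2), ?_, by simp⟩
      simp only [Set.mem_ofPred_eq] at hp ⊢
      simp [hp]
  · rw [hrow, hcol, ← Set.image_inter eV.injective, Set.ncard_image_of_injective _ eV.injective, h4]
  · rw [hrow, hrow, ← Set.image_inter eV.injective, Set.ncard_image_of_injective _ eV.injective,
      h5 _ _ (eR.injective.ne h)]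
  · rw [hcol, hcol, ← Set.image_inter eV.injective, Set.ncard_image_of_injective _ eV.injective,
      h6 _ _ (eC.injective.ne h)]

theorem main (q : ℕ) (hq : IsPrimePow q) (h2 : 2 < q) :
    ∃ A : Fin (q + 1) → Fin (q ^ 2) → Fin (q * (q + 1)), IsTripleArray A := by
  obtain ⟨p, n, hp, hn, rfl⟩ := (isPrimePow_nat_iff q).mp hq
  have : Fact p.Prime := ⟨hp⟩
  have hcard : Nat.card (GaloisField p n) = p ^ n := GaloisField.card p n hn.ne'
  obtain ⟨τ, hτ⟩ := exists_good (F := GaloisField p n) (by rw [hcard]; exact h2)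
  obtain ⟨A, hA⟩ := exists_tripleArray τ hτ
  refine ⟨_, hA.transport (Finite.equivFinOfCardEq ?_).symm (Finite.equivFinOfCardEq ?_).symm
    (Finite.equivFinOfCardEq ?_)⟩
  · rw [Finite.card_option, hcard]
  · rw [Nat.card_prod, hcard, sq]
  · rw [Nat.card_prod, Finite.card_option, hcard, mul_comm]

end Pool.Agent.Work.MP_394e0d_co
end

-- merged part: Pool.Agent.Work.MP_394e0d_co.B.Main
section
namespace Pool.Agent.Work.MP_394e0d_co.B

open Function

theorem order (q : ℕ) (hq : 2 < q) (row : Fin (q + 1) → Set (Fin (q * (q + 1))))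
    (col : Fin (q ^ 2) → Set (Fin (q * (q + 1)))) (h : IsUnorderedTripleArray row col) :
    ∃ A : Fin (q + 1) → Fin (q ^ 2) → Fin (q * (q + 1)), IsTripleArray A ∧
      (∀ i, Set.range (A i) = row i) ∧ ∀ j, Set.range (fun i => A i j) = col j := by
  obtain ⟨ln, hn, hc, hr⟩ := uta_net q hq row col h
  obtain ⟨s, hs⟩ : ∃ s, Labels ln s := by
    by_cases h4 : q = 4
    · exact four hn (by simp [h4]) (by simp [h4])
    by_cases h6 : q = 6
    · exact (six hn (by simp [h6]) (by simp [h6])).elim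
    have : Nontrivial (Fin (q ^ 2)) := Fin.nontrivial_iff_two_le.2 (by nlinarith)
    exact geo hn (by rw [Fintype.card_fin]; omega)
  exact uta_order q row col h ln hc hr s hs

theorem forget {R C V : Type} {A : R → C → V} (h : IsTripleArray A) :
    IsUnorderedTripleArray (fun i => Set.range (A i)) fun j => Set.range fun i => A i j := by
  obtain ⟨h1, h2, ⟨e, h3⟩, h4, h5, h6⟩ := h
  refine ⟨fun i => Set.ncard_range_of_injective (h1 i),
    fun j => Set.ncard_range_of_injective (h2 j), ⟨e, fun s => ⟨?_, ?_⟩⟩, h4, h5, h6⟩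
  · rw [← h3 s, ← Set.InjOn.ncard_image (f := Prod.fst)]
    · congr 1
      ext i
      simp
    · rintro ⟨i, j⟩ a ⟨i', j'⟩ b (rfl : i = i')
      rw [show j = j' from h1 i (a.trans b.symm)]
  · rw [← h3 s, ← Set.InjOn.ncard_image (f := Prod.snd)]
    · congr 1
      ext i
      simp
    · rintro ⟨i, j⟩ a ⟨i', j'⟩ b (rfl : j = j')
      rw [show i = i' from h2 j (a.trans b.symm)]

end Pool.Agent.Work.MP_394e0d_co.B
end
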