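import Mathlib

-- merged part: Pool.Agent.Work.MP_394e0d_co.B.Hall
section
namespace Pool.Agent.Work.MP_394e0d_co.B

open Finset Function

/-- Latin property: injective in each argument. -/
def Lat {α β γ : Type} (L : α → β → γ) : Prop :=
  (∀ x, Injective (L x)) ∧ ∀ y, Injective fun x => L x y

theorem Lat.tr {α β γ : Type} {L : α → β → γ} (h : Lat L) : Lat fun y x => L x y :=
  ⟨h.2, h.1⟩

/-- An idempotent Latin square whose row `a` and column `a` are both `π`. -/
def Sol {R : Type} (a : R) (π : R → R) : Prop :=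
  ∃ L : R → R → R, Lat L ∧ (∀ x, L x x = x) ∧ ∀ x, L a x = π x ∧ L x a = π x

theorem Sol.map {R S : Type} (e : S ≃ R) {a : S} {π : R → R} {σ : S → S} (h : Sol (e a) π)
    (hσ : ∀ x, e (σ x) = π (e x)) : Sol a σ := by
  obtain ⟨L, hL, hd, ha⟩ := h
  refine ⟨fun x y => e.symm (L (e x) (e y)), ⟨fun x y y' h => ?_, fun y x x' h => ?_⟩,
    fun x => by simp [hd], fun x => ?_⟩
  · exact e.injective (hL.1 _ (e.symm.injective h))
  · exact e.injective (hL.2 _ (e.symm.injective h))
  · simp [(ha (e x)).1, (ha (e x)).2, ← hσ]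

section
variable {α β : Type} [Fintype α] [Fintype β] [DecidableEq α] [DecidableEq β]

omit [Fintype α] [DecidableEq α] in
theorem card_hit (l : List (α ≃ β)) (x : α) :
    (univ.filter fun y => ∃ g ∈ l, g x = y).card ≤ l.length := by
  have : (univ.filter fun y => ∃ g ∈ l, g x = y) = (l.map fun g => g x).toFinset := by
    ext y; simp
  rw [this]
  simpa using List.toFinset_card_le (l.map fun g => g x)

omit [Fintype β] in
theorem hit_eq (l : List (α ≃ β)) (y : β) :
    (univ.filter fun x => ∃ g ∈ l, g x = y) = (l.map fun g => g.symm y).toFinset := by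
  ext x
  simp only [mem_filter, mem_univ, true_and, List.mem_toFinset, List.mem_map]
  constructor
  · rintro ⟨g, hg, rfl⟩; exact ⟨g, hg, by simp⟩
  · rintro ⟨g, hg, rfl⟩; exact ⟨g, hg, by simp⟩

/-- A partial injection extends to a bijection avoiding a few given bijections. -/
theorem avoid (hc : Fintype.card α = Fintype.card β) (P : Finset α) (p : α → β)
    (hp : Set.InjOn p P) (l : List (α ≃ β)) (h : 2 * l.length + P.card ≤ Fintype.card α) :
    ∃ f : α ≃ β, (∀ x ∈ P, f x = p x) ∧ ∀ x, x ∉ P → ∀ g ∈ l, f x ≠ g x := by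
  classical
  set T : Finset β := univ \ P.image p with hT
  have hTc : T.card = Fintype.card α - P.card := by
    rw [hT, card_univ_sdiff, card_image_of_injOn hp, hc]
  let t : {x // x ∉ P} → Finset β := fun x => T \ univ.filter fun y => ∃ g ∈ l, g x.1 = y
  have hall : ∀ s : Finset {x // x ∉ P}, s.card ≤ (s.biUnion t).card := by
    intro s
    have hs : s.card ≤ Fintype.card α - P.card := by
      have := s.card_le_univ
      rwa [Fintype.card_subtype_compl, Fintype.card_coe] at this
    rcases s.eq_empty_or_nonempty with rfl | ⟨x, hx⟩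
    · simp
    by_cases h1 : s.card ≤ l.length
    · have h2 : (t x).card ≤ (s.biUnion t).card := card_le_card (subset_biUnion_of_mem t hx)
      have h3 := le_card_sdiff (univ.filter fun y => ∃ g ∈ l, g x.1 = y) T
      have h4 := card_hit l x.1
      have : (t x).card = (T \ univ.filter fun y => ∃ g ∈ l, g x.1 = y).card := rfl
      omega
    · have : T ⊆ s.biUnion t := by
        intro y hy
        by_contra hn
        have hsub : s.map (Embedding.subtype _) ⊆ univ.filter fun x => ∃ g ∈ l, g x = y := by
          intro z hz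
          obtain ⟨z', hz', rfl⟩ := mem_map.1 hz
          by_contra hz2
          exact hn (mem_biUnion.2 ⟨z', hz', mem_sdiff.2 ⟨hy, by simpa using hz2⟩⟩)
        have h5 := card_le_card hsub
        rw [card_map, hit_eq] at h5
        have := List.toFinset_card_le (l.map fun g => g.symm y)
        simp only [List.length_map] at this
        omega
      have := card_le_card this
      omega
  obtain ⟨f, hf, hft⟩ := (all_card_le_biUnion_card_iff_exists_injective t).1 hall
  have hT' : ∀ x, ∀ z ∈ P, f x ≠ p z := by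
    intro x z hz hx
    have := (mem_sdiff.1 (mem_sdiff.1 (hft x)).1).2
    exact this (mem_image.2 ⟨z, hz, hx.symm⟩)
  let F : α → β := fun x => if h : x ∈ P then p x else f ⟨x, h⟩
  have hF : Injective F := by
    intro x y hxy
    by_cases hx : x ∈ P <;> by_cases hy : y ∈ P <;> simp only [F, hx, hy, dif_pos, dif_neg,
      not_false_eq_true] at hxy
    · exact hp hx hy hxy
    · exact absurd hxy.symm (hT' _ _ hx)
    · exact absurd hxy (hT' _ _ hy)
    · exact congrArg Subtype.val (hf hxy)
  refine ⟨Equiv.ofBijective F ((Fintype.bijective_iff_injective_and_card F).2 ⟨hF, hc⟩),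
    fun x hx => by simp [F, hx], fun x hx g hg hfx => ?_⟩
  have := (mem_sdiff.1 (hft ⟨x, hx⟩)).2
  apply this
  simp only [mem_filter, mem_univ, true_and]
  exact ⟨g, hg, by simpa [F, hx] using hfx.symm⟩

theorem extend (hc : Fintype.card α = Fintype.card β) (P : Finset α) (p : α → β)
    (hp : Set.InjOn p P) : ∃ f : α ≃ β, ∀ x ∈ P, f x = p x := by
  obtain ⟨f, hf, -⟩ := avoid hc P p hp []
    (by rw [List.length_nil, mul_zero, zero_add]; exact card_le_univ _)
  exact ⟨f, hf⟩

end

section
variable {S : Type} [Fintype S] [DecidableEq S]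

theorem ext_step (l : List (S ≃ S)) (hd : l.Pairwise fun f g => ∀ x, f x ≠ g x)
    (h : l.length < Fintype.card S) : ∃ f : S ≃ S, ∀ g ∈ l, ∀ x, f x ≠ g x := by
  classical
  let t : S → Finset S := fun x => univ \ univ.filter fun y => ∃ g ∈ l, g x = y
  have hall : ∀ s : Finset S, s.card ≤ (s.biUnion t).card := by
    intro s
    have key := card_mul_le_card_mul (s := s) (t := s.biUnion t) (fun x y => y ∈ t x)
      (m := Fintype.card S - l.length) (n := Fintype.card S - l.length) ?_ ?_
    · exact Nat.le_of_mul_le_mul_right key (by omega)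
    · intro x hx
      have h1 : t x ⊆ (s.biUnion t).bipartiteAbove (fun x y => y ∈ t x) x := by
        intro y hy
        exact (mem_bipartiteAbove _).2 ⟨mem_biUnion.2 ⟨x, hx, hy⟩, hy⟩
      have h2 := card_le_card h1
      have h3 := card_hit l x
      have h4 : (t x).card = _ := card_univ_sdiff _
      omega
    · intro y _
      have h1 : s.bipartiteBelow (fun x y => y ∈ t x) y ⊆
          univ \ univ.filter fun x => ∃ g ∈ l, g x = y := by
        intro x hx
        have := ((mem_bipartiteBelow _).1 hx).2
        simpa [t] using this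
      have h2 := card_le_card h1
      rw [card_univ_sdiff, hit_eq, List.toFinset_card_of_nodup, List.length_map] at h2
      · exact h2
      · refine List.pairwise_map.2 (hd.imp fun {f g} hfg e => hfg (f.symm y) ?_)
        rw [Equiv.apply_symm_apply, e, Equiv.apply_symm_apply]
  obtain ⟨f, hf, hft⟩ := (all_card_le_biUnion_card_iff_exists_injective t).1 hall
  refine ⟨Equiv.ofBijective f (Finite.injective_iff_bijective.1 hf), fun g hg x hx => ?_⟩
  have := (mem_sdiff.1 (hft x)).2
  apply this
  simp only [mem_filter, mem_univ, true_and]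
  exact ⟨g, hg, by simpa using hx.symm⟩

/-- A Latin rectangle extends to a Latin square, whose rows are indexed by the entry at `a`. -/
theorem ext (a : S) (l : List (S ≃ S)) (hd : l.Pairwise fun f g => ∀ x, f x ≠ g x) :
    ∃ G : S → S → S, Lat G ∧ (∀ s, G s a = s) ∧ ∀ g ∈ l, ∀ x, G (g a) x = g x := by
  classical
  induction h : Fintype.card S - l.length generalizing l with
  | zero =>
    have hn : (l.map fun g => g a).Nodup :=
      List.pairwise_map.2 (hd.imp fun {f g} hfg => hfg a)
    have hu : (l.map fun g => g a).toFinset = univ := by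
      apply eq_univ_of_card
      have := (l.map fun g => g a).toFinset.card_le_univ
      rw [List.toFinset_card_of_nodup hn, List.length_map] at this ⊢
      omega
    have hs : ∀ s, ∃ g ∈ l, g a = s := fun s => by
      have : s ∈ (l.map fun g => g a).toFinset := hu ▸ mem_univ s
      simpa using this
    choose G hG hGa using hs
    have huniq : ∀ f ∈ l, ∀ g ∈ l, ∀ x, f x = g x → f = g := by
      have hd' : l.Pairwise fun f g => f = g ∨ ∀ x, f x ≠ g x := hd.imp Or.inr
      have : Std.Symm fun f g : S ≃ S => f = g ∨ ∀ x, f x ≠ g x :=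
        ⟨fun f g h => h.imp Eq.symm fun h x e => h x e.symm⟩
      intro f hf g hg x hx
      exact (List.Pairwise.forall_of_forall (R := fun f g : S ≃ S => f = g ∨ ∀ x, f x ≠ g x)
        (fun f _ => Or.inl rfl) hd' hf hg).resolve_right fun h => h x hx
    refine ⟨fun s => G s, ⟨fun s => (G s).injective, fun y s s' e => ?_⟩, hGa, fun g hg x => ?_⟩
    · rw [← hGa s, ← hGa s', huniq _ (hG s) _ (hG s') y e]
    · show G (g a) x = g x
      rw [huniq _ (hG (g a)) _ hg a (hGa _)]
  | succ n ih =>
    obtain ⟨f, hf⟩ := ext_step l hd (by omega)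
    obtain ⟨G, h1, h2, h3⟩ := ih (f :: l) (List.pairwise_cons.2 ⟨hf, hd⟩)
      (by simp only [List.length_cons]; omega)
    exact ⟨G, h1, h2, fun g hg => h3 g (List.mem_cons_of_mem _ hg)⟩

end

theorem switch {α β γ : Type} [DecidableEq α] [DecidableEq β] {L : α → β → γ} (h : Lat L)
    (c d : β) (X : Finset α) (h1 : ∀ x ∈ X, ∃ x' ∈ X, L x c = L x' d)
    (h2 : ∀ x ∈ X, ∃ x' ∈ X, L x d = L x' c) :
    Lat fun x y => if x ∈ X then L x (Equiv.swap c d y) else L x y := by
  have key : ∀ y, ∀ x ∈ X, ∀ x', x' ∉ X → L x (Equiv.swap c d y) ≠ L x' y := by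
    intro y x hx x' hx' e
    by_cases hc : y = c
    · subst hc
      rw [Equiv.swap_apply_left] at e
      obtain ⟨z, hz, e'⟩ := h2 x hx
      exact hx' (h.2 _ (e'.symm.trans e) ▸ hz)
    by_cases hd : y = d
    · subst hd
      rw [Equiv.swap_apply_right] at e
      obtain ⟨z, hz, e'⟩ := h1 x hx
      exact hx' (h.2 _ (e'.symm.trans e) ▸ hz)
    · rw [Equiv.swap_apply_of_ne_of_ne hc hd] at e
      exact hx' (h.2 _ e ▸ hx)
  refine ⟨fun x y y' e => ?_, fun y x x' e => ?_⟩
  · by_cases hx : x ∈ X <;> simp only [hx, if_true, if_false] at e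
    · exact (Equiv.swap c d).injective (h.1 _ e)
    · exact h.1 _ e
  · by_cases hx : x ∈ X <;> by_cases hx' : x' ∈ X <;> simp only [hx, hx', if_true, if_false] at e
    · exact h.2 _ e
    · exact absurd e (key _ _ hx _ hx')
    · exact absurd e.symm (key _ _ hx' _ hx)
    · exact h.2 _ e

theorem trade {R : Type} [Fintype R] [DecidableEq R] {L : R → R → R} (h : Lat L)
    (hd : ∀ x, L x x = x) (a u : R) (π : R ≃ R) (X : Finset R) (ha : a ∉ X) (hu : u ∉ X)
    (hc : ∀ x, L x a = L a x) (h0 : ∀ x, x ∉ X → L a x = π x)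
    (h1 : ∀ x ∈ X, L x u = π x ∧ L u x = π x) : Sol a π := by
  have k1 : ∀ x ∈ X, ∃ x' ∈ X, L a x = π x' := by
    intro x hx
    refine ⟨π.symm (L a x), ?_, by simp⟩
    by_contra hn
    have := h0 _ hn
    rw [Equiv.apply_symm_apply] at this
    exact hn ((h.1 a this).symm ▸ hx)
  have k2 : ∀ x ∈ X, ∃ x' ∈ X, π x = L a x' := by
    intro x hx
    obtain ⟨x', e⟩ := Finite.injective_iff_surjective.1 (h.1 a) (π x)
    refine ⟨x', ?_, e.symm⟩
    by_contra hn
    exact hn (π.injective ((h0 _ hn).symm.trans e) ▸ hx)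
  have s1 := switch h a u X
    (fun x hx => by
      obtain ⟨x', hx', e⟩ := k1 x hx
      exact ⟨x', hx', by rw [hc, e, (h1 x' hx').1]⟩)
    (fun x hx => by
      obtain ⟨x', hx', e⟩ := k2 x hx
      exact ⟨x', hx', by rw [(h1 x hx).1, e, hc]⟩)
  have s2 := switch s1.tr a u X
    (fun x hx => by
      obtain ⟨x', hx', e⟩ := k1 x hx
      exact ⟨x', hx', by simp only [ha, hu, if_false]; rw [e, (h1 x' hx').2]⟩)
    (fun x hx => by
      obtain ⟨x', hx', e⟩ := k2 x hx
      exact ⟨x', hx', by simp only [ha, hu, if_false]; rw [(h1 x hx).2, e]⟩)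
  refine ⟨_, s2.tr, fun x => ?_, fun x => ⟨?_, ?_⟩⟩
  · by_cases hx : x ∈ X
    · have e : Equiv.swap a u x = x :=
        Equiv.swap_apply_of_ne_of_ne (fun e => ha (e ▸ hx)) (fun e => hu (e ▸ hx))
      simp [hx, e, hd]
    · simp [hx, hd]
  · by_cases hx : x ∈ X
    · simp [hx, hu, (h1 x hx).2]
    · simp [hx, ha, h0 x hx]
  · by_cases hx : x ∈ X
    · simp [hx, ha, (h1 x hx).1]
    · simp [hx, ha, hc, h0 x hx]

end Pool.Agent.Work.MP_394e0d_co.B
end

-- merged part: Pool.Agent.Work.MP_394e0d_co.B.Even
section
namespace Pool.Agent.Work.MP_394e0d_co.B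

open Finset Function Sum

section
variable {A B : Type} [Fintype A] [DecidableEq A] [Fintype B] [DecidableEq B]

omit [Fintype B] in
theorem partA (π : A ⊕ B ≃ A ⊕ B) (hfix : ∀ x, π (inl x) ≠ inl x) (u w w' : A) (h1 : u ≠ w)
    (h2 : u ≠ w') (h3 : w ≠ w') (hu : ∀ x, π (inl u) ≠ inl x) (hu' : ∀ x, π (inl x) ≠ inl u)
    (hw : ∀ x, π (inl w) ≠ inl x) (hw' : ∀ x, π (inl w') ≠ inl x)
    (IH : ∀ σ : A ≃ A, σ u = u → (∀ x, σ x = x → x = u) → Sol u σ) :
    ∃ K : A → A → A, Lat K ∧ (∀ x, K x x = x) ∧
      ∀ x x', π (inl x) = inl x' → K x u = x' ∧ K u x = x' := by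
  classical
  let P : Finset A := univ.filter fun x => x = u ∨ ∃ x', π (inl x) = inl x'
  let p : A → A := fun x => Sum.elim id (fun _ => x) (π (inl x))
  have hpu : p u = u := by
    simp only [p]
    rcases h : π (inl u) with x | y
    · exact absurd h (hu x)
    · rfl
  have hpx : ∀ x x', π (inl x) = inl x' → p x = x' := fun x x' h => by simp [p, h]
  obtain ⟨σ, hσ, hσ'⟩ := avoid rfl P p (by
      intro x hx y hy e
      simp only [P, coe_filter, mem_univ, true_and, Set.mem_ofPred_eq] at hx hy
      rcases hx with rfl | ⟨x', hx⟩ <;> rcases hy with rfl | ⟨y', hy⟩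
      · rfl
      · rw [hpu, hpx _ _ hy] at e; exact absurd hy (e ▸ hu' y)
      · rw [hpu, hpx _ _ hx] at e; exact absurd hx (e ▸ hu' x)
      · rw [hpx _ _ hx, hpx _ _ hy] at e
        exact inl_injective (π.injective (by rw [hx, hy, e])))
    [Equiv.refl A] (by
      have : P ⊆ univ \ {w, w'} := by
        intro x hx
        simp only [P, mem_filter, mem_univ, true_and] at hx
        simp only [mem_sdiff, mem_univ, mem_insert, mem_singleton, true_and]
        rintro (rfl | rfl) <;> rcases hx with rfl | ⟨x', hx⟩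
        · exact h1 rfl
        · exact hw _ hx
        · exact h2 rfl
        · exact hw' _ hx
      have h4 := card_le_card this
      have h5 := card_le_univ ({w, w'} : Finset A)
      rw [card_univ_sdiff] at h4
      rw [card_pair h3] at h4 h5
      simp only [List.length_singleton]
      omega)
  obtain ⟨K, hK, hd, hKu⟩ := IH σ (by rw [hσ u (by simp [P]), hpu]) (by
    intro x hx
    by_cases hP : x ∈ P
    · rcases (mem_filter.1 hP).2 with h | ⟨x', h⟩
      · exact h
      · rw [hσ x hP, hpx _ _ h] at hx
        exact absurd h (hx ▸ hfix x)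
    · exact absurd hx (hσ' x hP (Equiv.refl A) (by simp)))
  refine ⟨K, hK, hd, fun x x' h => ?_⟩
  have : σ x = x' := by rw [hσ x (by simp [P, h]), hpx _ _ h]
  exact ⟨(hKu x).2.trans this, (hKu x).1.trans this⟩

/-- The elements of `B` that are sent to `B`. -/
def stay (π : A ⊕ B ≃ A ⊕ B) : Finset B := univ.filter fun y => (π (inr y)).isRight

omit [Fintype A] [DecidableEq A] [DecidableEq B] in
theorem mem_stay {π : A ⊕ B ≃ A ⊕ B} {y : B} : y ∈ stay π ↔ ∃ y', π (inr y) = inr y' := by
  simp [stay, isRight_iff]

omit [DecidableEq B] in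
theorem card_stay (π : A ⊕ B ≃ A ⊕ B) (u w w' : A) (h1 : u ≠ w)
    (h2 : u ≠ w') (h3 : w ≠ w') (hu : ∀ x, π (inl u) ≠ inl x)
    (hw : ∀ x, π (inl w) ≠ inl x) (hw' : ∀ x, π (inl w') ≠ inl x) :
    (stay π).card + 3 ≤ Fintype.card B ∧ Fintype.card B ≤ (stay π).card + Fintype.card A := by
  classical
  have e1 : ∑ z : A ⊕ B, (if (π z).isRight then 1 else 0 : ℕ) =
      ∑ z : A ⊕ B, (if z.isRight then 1 else 0 : ℕ) :=
    Equiv.sum_comp π fun z => (if z.isRight then 1 else 0 : ℕ)
  rw [Fintype.sum_sum_type, Fintype.sum_sum_type, ← card_filter, ← card_filter] at e1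
  simp only [isRight_inl, isRight_inr, Bool.false_eq_true, if_false, if_true, sum_const_zero,
    sum_const, card_univ, smul_eq_mul, mul_one, zero_add] at e1
  have e2 : ({u, w, w'} : Finset A) ⊆ univ.filter fun x => (π (inl x)).isRight := by
    have k : ∀ v : A, (∀ x, π (inl v) ≠ inl x) → (π (inl v)).isRight := fun v hv => by
      rcases h : π (inl v) with x | y
      · exact absurd h (hv x)
      · rfl
    intro x hx
    simp only [mem_insert, mem_singleton] at hx
    rcases hx with rfl | rfl | rfl <;> simp only [mem_filter, mem_univ, true_and] <;>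
      exact k _ ‹_›
  have e3 := card_le_card e2
  rw [card_eq_three.2 ⟨u, w, w', h1, h2, h3, rfl⟩] at e3
  have e4 := card_le_univ (univ.filter fun x : A => (π (inl x)).isRight)
  unfold stay
  omega

/-- The map used for the auxiliary row on `B`. -/
def pB (π : A ⊕ B ≃ A ⊕ B) (a b : B) (y : B) : B :=
  if y = a then b else Sum.elim (fun _ => y) id (π (inr y))

omit [Fintype A] [DecidableEq A] [Fintype B] in
theorem pB_eq {π : A ⊕ B ≃ A ⊕ B} {a b y y' : B} (h : y ≠ a) (h' : π (inr y) = inr y') :
    pB π a b y = y' := by simp [pB, h, h']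

omit [Fintype A] [DecidableEq A] in
theorem pB_inj (π : A ⊕ B ≃ A ⊕ B) (a b : B) (u : A) (hb : π (inl u) = inr b) :
    Set.InjOn (pB π a b) (stay π) := by
  intro x hx y hy e
  obtain ⟨x', hx⟩ := mem_stay.1 hx
  obtain ⟨y', hy⟩ := mem_stay.1 hy
  by_cases h1 : x = a <;> by_cases h2 : y = a
  · rw [h1, h2]
  · rw [pB_eq h2 hy, h1] at e
    simp only [pB, if_true] at e
    exact absurd (π.injective (hb.trans (e ▸ hy.symm))) (by simp)
  · rw [pB_eq h1 hx, h2] at e
    simp only [pB, if_true] at e
    exact absurd (π.injective (hb.trans (e ▸ hx.symm))) (by simp)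
  · rw [pB_eq h1 hx, pB_eq h2 hy] at e
    exact inr_injective (π.injective (by rw [hx, hy, e]))

omit [Fintype A] [DecidableEq A] in
theorem partB (π : A ⊕ B ≃ A ⊕ B) (a b : B) (u : A) (ha : π (inr a) = inr a)
    (hπ : ∀ x, π x = x → x = inr a) (hb : π (inl u) = inr b) (P : Finset B) (hP : P ⊆ stay π)
    (haP : a ∈ P) (l : List (B ≃ B)) (hl : 2 * (l.length + 1) + P.card ≤ Fintype.card B) :
    ∃ z : B ≃ B, z a = b ∧ (∀ y, y ≠ z y) ∧
      (∀ y ∈ P, ∀ y', y ≠ a → π (inr y) = inr y' → z y = y') ∧
      ∀ y, y ∉ P → ∀ g ∈ l, z y ≠ g y := by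
  obtain ⟨z, hz, hz'⟩ := avoid rfl P (pB π a b) ((pB_inj π a b u hb).mono hP)
    (Equiv.refl B :: l) (by simpa using hl)
  have hab : z a = b := by rw [hz a haP]; simp [pB]
  refine ⟨z, hab, fun y e => ?_, fun y hy y' h h' => by rw [hz y hy, pB_eq h h'],
    fun y hy g hg => hz' y hy g (List.mem_cons_of_mem _ hg)⟩
  by_cases hy : y ∈ P
  · by_cases h : y = a
    · rw [h, hab] at e
      exact absurd (π.injective (hb.trans (e ▸ ha.symm))) (by simp)
    · obtain ⟨y', h'⟩ := mem_stay.1 (hP hy)
      rw [hz y hy, pB_eq h h'] at e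
      exact h (inr_injective (hπ _ (e ▸ h')))
  · exact hz' y hy (Equiv.refl B) (by simp) e.symm

theorem partAl {E : Type} [Fintype E] [DecidableEq E] (π : A ⊕ B ≃ A ⊕ B)
    (hc : Fintype.card (A ⊕ E) = Fintype.card B) (ex : E → B) (hex : Injective ex)
    (h : ∀ e x, π (inl x) ≠ inr (ex e)) :
    ∃ al : A → B, Injective al ∧ (∀ x e, al x ≠ ex e) ∧
      ∀ x y, π (inl x) = inr y → al x = y := by
  classical
  rcases isEmpty_or_nonempty A with hA | ⟨⟨x0⟩⟩
  · exact ⟨isEmptyElim, fun x => isEmptyElim x, fun x => isEmptyElim x, fun x => isEmptyElim x⟩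
  have hB : Nonempty B := Fintype.card_pos_iff.1 (hc ▸ Fintype.card_pos_iff.2 ⟨inl x0⟩)
  obtain ⟨f, hf⟩ := extend hc (univ.filter fun z => ∀ x, z = inl x → ∃ y, π (inl x) = inr y)
    (Sum.elim (fun x => Sum.elim (fun _ => hB.some) id (π (inl x))) ex) (by
      rintro (x | e) hx (y | e') hy k <;>
        simp only [coe_filter, mem_univ, true_and, Set.mem_ofPred_eq, inl.injEq, forall_eq',
          elim_inl, elim_inr] at hx hy k
      · obtain ⟨x', hx⟩ := hx
        obtain ⟨y', hy⟩ := hy
        simp only [hx, hy, elim_inr, id] at k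
        rw [inl_injective (π.injective (hx.trans (k ▸ hy.symm)))]
      · obtain ⟨x', hx⟩ := hx
        simp only [hx, elim_inr, id] at k
        exact absurd hx (k ▸ h e' x)
      · obtain ⟨y', hy⟩ := hy
        simp only [hy, elim_inr, id] at k
        exact absurd hy (k ▸ h e y)
      · rw [hex k])
  refine ⟨fun x => f (inl x), fun x y e => inl_injective (f.injective e), fun x e k => ?_,
    fun x y k => ?_⟩
  · have : f (inr e) = ex e := hf _ (by simp)
    exact absurd (f.injective (k.trans this.symm)) (by simp)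
  · show f (inl x) = y
    rw [hf _ (by simp [k])]
    simp [k]

end

section
variable {A : Type} [DecidableEq A]

/-- The block square for an even number of moved points. -/
def evL (K : A → A → A) (G : A → Option A → Option A) :
    A ⊕ Option A → A ⊕ Option A → A ⊕ Option A
  | inl x, inl x' => inl (K x x')
  | inl x, inr y => inr (G x y)
  | inr y, inl x => inr (G x y)
  | inr none, inr none => inr none
  | inr none, inr (some q) => inl q
  | inr (some p), inr none => inl p
  | inr (some p), inr (some q) => if p = q then inr (some p) else inl (K p q)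

theorem evL_tr (K : A → A → A) (G : A → Option A → Option A) (x y : A ⊕ Option A) :
    evL K G x y = evL (fun p q => K q p) G y x := by
  rcases x with x | _ | x <;> rcases y with y | _ | y <;> simp only [evL]
  by_cases h : x = y
  · simp [h]
  · simp [h, Ne.symm h]

theorem evL_row {K : A → A → A} {G : A → Option A → Option A} (hK : ∀ x, Injective (K x))
    (hd : ∀ x, K x x = x) (hG : Lat G) (hne : ∀ x y, G x y ≠ y) (z : A ⊕ Option A) :
    Injective (evL K G z) := by
  have k1 : ∀ x y y', K x y = K x y' → y = y' := fun x y y' h => hK x h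
  have k2 : ∀ x y y', G x y = G x y' → y = y' := fun x y y' h => hG.1 x h
  have k3 : ∀ x x' y, G x y = G x' y → x = x' := fun x x' y h => hG.2 y h
  have k4 : ∀ x y, K x y = x → y = x := fun x y h => hK x (h.trans (hd x).symm)
  rcases z with x | _ | x <;> rintro (y | _ | y) (y' | _ | y') e <;> simp only [evL] at e <;>
    grind

end

theorem even_sol {A : Type} [Fintype A] [DecidableEq A] (π : A ⊕ Option A ≃ A ⊕ Option A)
    (ha : π (inr none) = inr none) (hπ : ∀ x, π x = x → x = inr none)
    (hγ : ∀ p x, π (inr (some p)) = inl x → x = p) (u w w' : A) (h1 : u ≠ w)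
    (h2 : u ≠ w') (h3 : w ≠ w') (hu : ∀ x, π (inl u) ≠ inl x) (hu' : ∀ x, π (inl x) ≠ inl u)
    (hw : ∀ x, π (inl w) ≠ inl x) (hw' : ∀ x, π (inl w') ≠ inl x)
    (IH : ∀ σ : A ≃ A, σ u = u → (∀ x, σ x = x → x = u) → Sol u σ) : Sol (inr none) π := by
  classical
  obtain ⟨K, hK, hd, hKu⟩ := partA π (fun x h => by simpa using hπ _ h) u w w' h1 h2 h3 hu hu'
    hw hw' IH
  obtain ⟨b, hb⟩ : ∃ b, π (inl u) = inr b := by
    rcases h : π (inl u) with x | y
    · exact absurd h (hu x)
    · exact ⟨y, rfl⟩
  have hc := (card_stay π u w w' h1 h2 h3 hu hw hw').1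
  obtain ⟨z, hza, hz1, hz2, -⟩ := partB π none b u ha hπ hb (stay π) subset_rfl
    (mem_stay.2 ⟨_, ha⟩) [] (by simp only [List.length_nil]; omega)
  obtain ⟨al, hal, hal1, hal2⟩ := partAl (E := Unit) π (by simp) (fun _ => none)
    (fun _ _ _ => rfl) (fun _ x h => by simpa using π.injective (h.trans ha.symm))
  obtain ⟨G, hG, hGa, hGl⟩ := ext none [Equiv.refl _, z] (by simpa using hz1)
  have hG0 : ∀ y, G none y = y := hGl (Equiv.refl _) (by simp)
  have hGz : ∀ y, G b y = z y := fun y => hza ▸ hGl z (by simp) y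
  have hG' : Lat fun x => G (al x) := ⟨fun x => hG.1 _, fun y x x' e => hal (hG.2 y e)⟩
  have hne : ∀ x y, G (al x) y ≠ y := fun x y e =>
    hal1 x () (hG.2 y (e.trans (hG0 y).symm))
  refine trade (L := evL K fun x => G (al x)) ⟨evL_row hK.1 hd hG' hne, fun y x x' e => ?_⟩ ?_
    (inr none) (inl u) π
    (univ.filter fun x => x ≠ inr none ∧ (π x).isLeft = x.isLeft) (by simp) (by simp [hb]) ?_ ?_ ?_
  · simp only [evL_tr K] at e
    exact evL_row hK.2 hd hG' hne y e
  · rintro (x | _ | x) <;> simp [evL, hd]
  · rintro (x | _ | x) <;> simp [evL]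
  · rintro (x | _ | x) hx <;> simp only [mem_filter, mem_univ, true_and, not_and] at hx
    · rcases h : π (inl x) with y | y
      · simp [h] at hx
      · simp [evL, hGa, hal2 x y h]
    · simp [evL, ha]
    · rcases h : π (inr (some x)) with y | y
      · simp [evL, hγ x y h]
      · simp [h] at hx
  · rintro (x | _ | x) hx <;> simp only [mem_filter, mem_univ, true_and] at hx
    · rcases h : π (inl x) with y | y
      · simp [evL, hKu x y h]
      · simp [h] at hx
    · simp at hx
    · rcases h : π (inr (some x)) with y | y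
      · simp [h] at hx
      · simp [evL, hal2 u b hb, hGz, hz2 (some x) (mem_stay.2 ⟨_, h⟩) y (by simp) h]

end Pool.Agent.Work.MP_394e0d_co.B
end

-- merged part: Pool.Agent.Work.MP_394e0d_co.B.Dsq
section
namespace Pool.Agent.Work.MP_394e0d_co.B

open Finset Function

section
variable {Z : Type} [CommRing Z] [DecidableEq Z]

/-- Prolongation of the addition table along a partial transversal. -/
def dA : Option Z → Option Z → Option Z
  | some x, some y => if y = x + 1 ∧ x ≠ 0 then none else some (x + y)
  | some x, none => if x = 0 then none else some (2 * x + 1)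
  | none, some y => if y = 1 then none else some (2 * y - 1)
  | none, none => some 1

/-- Double prolongation of the addition table. -/
def dB : Z ⊕ Bool → Z ⊕ Bool → Z ⊕ Bool
  | .inl x, .inl y => if y = x + 1 then .inr false else if y = x + 2 then .inr true
      else .inl (x + y)
  | .inl x, .inr b => .inl (2 * x + if b then 2 else 1)
  | .inr b, .inl y => .inl (2 * y - if b then 2 else 1)
  | .inr b, .inr c => .inr (xor b c)

theorem dA_lat (h2 : ∀ x y : Z, 2 * x = 2 * y → x = y) : Lat (dA (Z := Z)) := by
  constructor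
  · rintro (_ | x) (_ | y) (_ | y') e <;> simp only [dA] at e <;> (try split_ifs at e) <;>
      simp only [Option.some.injEq, reduceCtorEq] at e ⊢
    · exact absurd (h2 y' 1 (by linear_combination -e)) ‹_›
    · exact absurd (h2 y 1 (by linear_combination e)) ‹_›
    · grind
    · exact h2 _ _ (by linear_combination e)
    all_goals grind
  · rintro (_ | y) (_ | x) (_ | x') e <;> simp only [dA] at e <;> (try split_ifs at e) <;>
      simp only [Option.some.injEq, reduceCtorEq] at e ⊢
    · exact absurd (h2 x' 0 (by linear_combination -e)) ‹_›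
    · exact absurd (h2 x 0 (by linear_combination e)) ‹_›
    · grind
    · exact h2 _ _ (by linear_combination e)
    all_goals grind

theorem dB_lat (h2 : ∀ x y : Z, 2 * x = 2 * y → x = y) (h1 : (1 : Z) ≠ 0) :
    Lat (dB (Z := Z)) := by
  constructor
  · rintro (x | _ | _) (y | _ | _) (y' | _ | _) e <;> simp only [dB] at e <;>
      (try split_ifs at e) <;>
      simp only [Sum.inl.injEq, Sum.inr.injEq, reduceCtorEq] at e ⊢ <;>
      first
        | (clear h2; grind)
        | exact h2 _ _ (by linear_combination e)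
        | exact h1 (by linear_combination e)
        | exact h1 (by linear_combination -e)
        | grind
  · rintro (y | _ | _) (x | _ | _) (x' | _ | _) e <;> simp only [dB] at e <;>
      (try split_ifs at e) <;>
      simp only [Sum.inl.injEq, Sum.inr.injEq, reduceCtorEq] at e ⊢ <;>
      first
        | (clear h2; grind)
        | exact h2 _ _ (by linear_combination e)
        | exact h1 (by linear_combination e)
        | exact h1 (by linear_combination -e)
        | grind

end

theorem dsq_of {A T : Type} [Fintype A] [DecidableEq A] [Fintype T] [DecidableEq T]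
    (hc : Fintype.card T = Fintype.card A + 1) (D : T → T → T) (hD : Lat D) (i j : T)
    (hij : i ≠ j) (he : D i i = D j j) (hi : ∀ x y, x ≠ i → y ≠ i → D x x = D y y → x = y)
    (r : A) : ∃ K : Option A → Option A → Option A, Lat K ∧
      (∀ p, K (some p) (some p) = some p) ∧ K none none = some r := by
  have hc' : Fintype.card (Option A) = Fintype.card T := by simp [hc]
  obtain ⟨e, he1, -⟩ := avoid hc' {none, some r} (fun o => o.elim i fun _ => j)
    (by rintro (_ | x) hx (_ | y) hy h <;> simp_all) []
    (by rw [List.length_nil, mul_zero, zero_add]; exact card_le_univ _)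
  have e0 : e none = i := he1 _ (by simp)
  have e1 : e (some r) = j := he1 _ (by simp)
  obtain ⟨g, hg, -⟩ := avoid hc' (univ.erase none) (fun o => D (e o) (e o))
    (fun x hx y hy h => e.injective (hi _ _
      (fun h => by simp [e.injective (h.trans e0.symm)] at hx)
      (fun h => by simp [e.injective (h.trans e0.symm)] at hy) h))
    [] (by rw [List.length_nil, mul_zero, zero_add]; exact card_le_univ _)
  refine ⟨fun x y => g.symm (D (e x) (e y)), ⟨fun x y y' h => ?_, fun y x x' h => ?_⟩,
    fun p => ?_, ?_⟩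
  · exact e.injective (hD.1 _ (g.symm.injective h))
  · exact e.injective (hD.2 _ (g.symm.injective h))
  · rw [Equiv.symm_apply_eq, hg _ (by simp)]
  · rw [Equiv.symm_apply_eq, hg _ (by simp), e0, e1, he]

theorem two_cancel (m : ℕ) (x y : ZMod (2 * m + 3)) (h : 2 * x = 2 * y) : x = y := by
  have : ((2 * m + 3 : ℕ) : ZMod (2 * m + 3)) = 0 := ZMod.natCast_self _
  push_cast at this
  linear_combination (m + 2) * h - (x - y) * this

/-- A Latin square whose diagonal repeats exactly one symbol. -/
theorem dsq {A : Type} [Fintype A] [DecidableEq A] (hc : 3 ≤ Fintype.card A) (r : A) :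
    ∃ K : Option A → Option A → Option A, Lat K ∧
      (∀ p, K (some p) (some p) = some p) ∧ K none none = some r := by
  have h1 : ∀ m, (1 : ZMod (2 * m + 3)) ≠ 0 := fun m => by
    have : Fact (1 < 2 * m + 3) := ⟨by omega⟩
    exact one_ne_zero
  obtain ⟨m, hm | hm⟩ : ∃ m, Fintype.card A = 2 * m + 3 ∨ Fintype.card A = 2 * m + 4 :=
    ⟨(Fintype.card A - 3) / 2, by omega⟩
  · have h0 : ((2 * m + 3 : ℕ) : ZMod (2 * m + 3)) = 0 := ZMod.natCast_self _
    push_cast at h0
    have hd : ∀ x : ZMod (2 * m + 3), dA (some x) (some x) = some (x + x) := fun x => by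
      have := h1 m
      simp [dA, this]
    refine dsq_of (T := Option (ZMod (2 * m + 3))) (by simp [hm]) dA (dA_lat (two_cancel m))
      none (some (m + 2)) (by simp) ?_ ?_ r
    · rw [hd]; simp only [dA, Option.some.injEq]; linear_combination -h0
    · rintro (_ | x) (_ | y) hx hy h <;> simp only [ne_eq, not_true_eq_false] at hx hy
      rw [hd, hd, Option.some.injEq] at h
      rw [two_cancel m x y (by linear_combination h)]
  · have hd : ∀ x : ZMod (2 * m + 3), dB (.inl x) (.inl x) = .inl (x + x) := fun x => by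
      have := h1 m
      have h2 : (2 : ZMod (2 * m + 3)) ≠ 0 := fun h => this (two_cancel m 1 0 (by simpa using h))
      simp [dB, this, h2]
    refine dsq_of (T := ZMod (2 * m + 3) ⊕ Bool) (by simp [hm]) dB
      (dB_lat (two_cancel m) (h1 m)) (.inr false) (.inr true) (by simp) (by simp [dB]) ?_ r
    rintro (x | _ | _) (y | _ | _) hx hy h <;> simp only [ne_eq, not_true_eq_false] at hx hy
    · rw [hd, hd, Sum.inl.injEq] at h
      rw [two_cancel m x y (by linear_combination h)]
    · rw [hd] at h; simp [dB] at h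
    · rw [hd] at h; simp [dB] at h
    · rfl

end Pool.Agent.Work.MP_394e0d_co.B
end

-- merged part: Pool.Agent.Work.MP_394e0d_co.B.Odd
section
namespace Pool.Agent.Work.MP_394e0d_co.B

open Finset Function Sum

section
variable {A : Type} [DecidableEq A]

/-- The block on the second part; `none` is the special point, `some none` is the source of the
distinguished arc, which ends at `t`. -/
def odB (t : Option (Option A)) (D : Option A → Option A → Option A)
    (E : Option A → Option A → Option (Option A)) :
    Option (Option A) → Option (Option A) → A ⊕ Option (Option A)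
  | none, none => inr none
  | none, some none => inr t
  | none, some (some q) => inl q
  | some none, none => inr t
  | some (some p), none => inl p
  | some i, some j => if i = j then inr (some i) else (D i j).elim (inr (E i j)) inl

/-- The block square for an odd number of moved points. -/
def odL (u w r : A) (t : Option (Option A)) (K : A → A → A)
    (G H : A → Option (Option A) → Option (Option A)) (D : Option A → Option A → Option A)
    (E : Option A → Option A → Option (Option A)) :
    A ⊕ Option (Option A) → A ⊕ Option (Option A) → A ⊕ Option (Option A)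
  | inl x, inl x' => if x = u ∧ x' = w then inr t else inl (K x x')
  | inl x, inr y => if x = u ∧ y = some none then inl r else inr (G x y)
  | inr y, inl x => if x = w ∧ y = some none then inl r else inr (H x y)
  | inr y, inr y' => odB t D E y y'

theorem odL_tr (u w r : A) (t : Option (Option A)) (K : A → A → A)
    (G H : A → Option (Option A) → Option (Option A)) (D : Option A → Option A → Option A)
    (E : Option A → Option A → Option (Option A)) (x y : A ⊕ Option (Option A)) :
    odL u w r t K G H D E x y =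
      odL w u r t (fun p q => K q p) H G (fun i j => D j i) (fun i j => E j i) y x := by
  rcases x with x | _ | x <;> rcases y with y | _ | y
  · simp only [odL, and_comm]
  · simp only [odL]
  · simp only [odL]
  · simp only [odL]
  · rfl
  · cases y <;> simp only [odL, odB]
  · simp only [odL]
  · cases x <;> simp only [odL, odB]
  · by_cases h : x = y
    · subst h; cases x <;> simp [odL, odB]
    · cases x <;> cases y <;> simp [odL, odB, h, Ne.symm h]

theorem odL_row {u w r : A} {t : Option (Option A)} {K : A → A → A}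
    {G H : A → Option (Option A) → Option (Option A)} {D : Option A → Option A → Option A}
    {E : Option A → Option A → Option (Option A)} {e : Option (Option A) → Option (Option A)}
    (hK : ∀ x, Injective (K x)) (hr : K u w = r) (hG : ∀ x, Injective (G x))
    (hGt : G u (some none) = t) (hH : ∀ y, Injective fun x => H x y)
    (hH1 : ∀ x y, H x y ≠ y) (hH2 : ∀ x y, H x y ≠ e y) (hHt : H w (some none) = t)
    (he0 : e none = t) (he1 : ∀ y, e y ≠ y) (he2 : e (some none) ≠ t) (ht : t ≠ some none)
    (hD : ∀ i, Injective (D i)) (hD1 : ∀ p, D (some p) (some p) = some p)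
    (hD0 : D none none = some r) (hE : ∀ i j, D i j = none → E i j = e (some i))
    (z : A ⊕ Option (Option A)) : Injective (odL u w r t K G H D E z) := by
  have k1 : ∀ x y y', K x y = K x y' → y = y' := fun x y y' h => hK x h
  have k2 : ∀ x y y', G x y = G x y' → y = y' := fun x y y' h => hG x h
  have k3 : ∀ x x' y, H x y = H x' y → x = x' := fun x x' y h => hH y h
  have k4 : ∀ i j j', D i j = D i j' → j = j' := fun i j j' h => hD i h
  have k5 : ∀ i j, (D i j).elim (inr (E i j)) inl = (inr (e (some i)) : A ⊕ Option (Option A)) ∧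
      D i j = none ∨ ∃ p, (D i j).elim (inr (E i j)) inl = (inl p : A ⊕ Option (Option A)) ∧
        D i j = some p := fun i j => by
    rcases h : D i j with _ | p
    · exact Or.inl ⟨by rw [hE i j h]; rfl, rfl⟩
    · exact Or.inr ⟨p, rfl, rfl⟩
  rcases z with x | _ | i
  · rintro (y | y) (y' | y') e <;> simp only [odL] at e <;> grind
  · have := he1 none
    rintro (y | _ | _ | y) (y' | _ | _ | y') e <;> simp only [odL, odB] at e <;> grind
  · have a1 := he1 (some i)
    have key : ∀ j, odB t D E (some i) (some j) = inr (some i) ∧ j = i ∨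
        odB t D E (some i) (some j) = inr (e (some i)) ∧ D i j = none ∧ j ≠ i ∨
        ∃ p, odB t D E (some i) (some j) = inl p ∧ D i j = some p ∧ j ≠ i := by
      intro j
      have := k5 i j
      by_cases h : i = j
      · subst h; cases i <;> simp [odB]
      · have h' : odB t D E (some i) (some j) = (D i j).elim (inr (E i j)) inl := by
          cases i <;> cases j <;> first | exact absurd rfl h | simp [odB, h]
        rw [h']
        grind
    rcases i with _ | p
    · have k0 : odB t D E (some none) none = inr t := rfl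
      rintro (y | _ | y) (y' | _ | y') e <;> simp only [odL, k0] at e <;>
        (try have b1 := key y) <;> (try have b2 := key y') <;> grind
    · have k0 : odB t D E (some (some p)) none = inl p := rfl
      have := hD1 p
      rintro (y | _ | y) (y' | _ | y') e <;> simp only [odL, k0] at e <;>
        (try have b1 := key y) <;> (try have b2 := key y') <;> grind

end

theorem odd_sol {A : Type} [Fintype A] [DecidableEq A] (hA : 7 ≤ Fintype.card A)
    (π : A ⊕ Option (Option A) ≃ A ⊕ Option (Option A))
    (ha : π (inr none) = inr none) (hπ : ∀ x, π x = x → x = inr none)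
    (t : Option (Option A)) (ht : π (inr (some none)) = inr t)
    (hγ : ∀ p x, π (inr (some (some p))) = inl x → x = p) (u w w' : A) (h1 : u ≠ w)
    (h2 : u ≠ w') (h3 : w ≠ w') (hu : ∀ x, π (inl u) ≠ inl x) (hu' : ∀ x, π (inl x) ≠ inl u)
    (hw : ∀ x, π (inl w) ≠ inl x) (hw' : ∀ x, π (inl w') ≠ inl x)
    (IH : ∀ σ : A ≃ A, σ u = u → (∀ x, σ x = x → x = u) → Sol u σ) : Sol (inr none) π := by
  classical
  obtain ⟨K, hK, hd, hKu⟩ := partA π (fun x h => by simpa using hπ _ h) u w w' h1 h2 h3 hu hu'
    hw hw' IH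
  obtain ⟨b, hb⟩ : ∃ b, π (inl u) = inr b := by
    rcases h : π (inl u) with x | y
    · exact absurd h (hu x)
    · exact ⟨y, rfl⟩
  obtain ⟨c, hc⟩ : ∃ b, π (inl w) = inr b := by
    rcases h : π (inl w) with x | y
    · exact absurd h (hw x)
    · exact ⟨y, rfl⟩
  have hcs := (card_stay π u w w' h1 h2 h3 hu hw hw').1
  have hB : Fintype.card (Option (Option A)) = Fintype.card A + 2 := by simp
  have inj : ∀ x y, π x = π y → x = y := fun x y h => π.injective h
  obtain ⟨t0, t1, bt, ct, c0, bc⟩ :
      t ≠ none ∧ t ≠ some none ∧ b ≠ t ∧ c ≠ t ∧ c ≠ none ∧ b ≠ c := by grind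
  have hs0 : none ∈ stay π := mem_stay.2 ⟨_, ha⟩
  have hs1 : some none ∈ stay π := mem_stay.2 ⟨_, ht⟩
  obtain ⟨D, hD, hD1, hD0⟩ := dsq (by omega) (K u w)
  choose φ0 hφ0 using fun i => Finite.injective_iff_surjective.1 (hD.1 i) none
  have hφi : Injective φ0 := fun i j e => hD.2 (φ0 j) ((e ▸ hφ0 i).trans (hφ0 j).symm)
  let φ := (Equiv.ofBijective φ0 (Finite.injective_iff_bijective.1 hφi)).optionCongr
  have φn : φ none = none := rfl
  have φs : ∀ i j, D i j = none → φ (some i) = some j := fun i j h =>
    congrArg some (hD.1 i ((hφ0 i).trans h.symm))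
  obtain ⟨z2, hz2a, hz21, hz22, -⟩ := partB π none b u ha hπ hb (stay π) subset_rfl hs0 []
    (by simp only [List.length_nil]; omega)
  obtain ⟨z3, hz3a, hz31, hz32, hz33⟩ := partB π none b u ha hπ hb ((stay π).erase (some none))
    (erase_subset _ _) (mem_erase.2 ⟨by simp, hs0⟩) [Equiv.swap (some none) t]
    (by
      have := card_pos.2 ⟨_, hs1⟩
      simp only [List.length_singleton, card_erase_of_mem hs1]; omega)
  have hz3t : z3 (some none) ≠ t := by simpa using hz33 (some none) (by simp)
  obtain ⟨e, he, he'⟩ := avoid rfl {none} (fun _ => t) (by simp)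
    [Equiv.refl _, z3, φ, φ.trans z2]
    (by simp only [List.length_cons, List.length_nil, card_singleton]; omega)
  have he0 : e none = t := he none (by simp)
  have hes : ∀ y, e y ≠ y ∧ e y ≠ z3 y ∧ e y ≠ φ y ∧ e y ≠ z2 (φ y) := by
    rintro (_ | y)
    · simp [he0, φn, hz2a, hz3a, t0, bt.symm]
    · simpa using he' (some y) (by simp)
  have he1 : e (some none) ≠ t := fun h => by simpa using e.injective (h.trans he0.symm)
  obtain ⟨cw, hcw, hcw'⟩ := avoid rfl {none, some none} (fun y => if y = none then c else t)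
    (by
      intro x hx y hy
      simp only [coe_insert, coe_singleton, Set.mem_insert_iff, Set.mem_singleton_iff] at hx hy
      rcases hx with rfl | rfl <;> rcases hy with rfl | rfl <;> simp [ct, ct.symm])
    [Equiv.refl _, z3, e] (by
      have := card_le_two (a := (none : Option (Option A))) (b := some none)
      simp only [List.length_cons, List.length_nil]; omega)
  have hcw0 : cw none = c := by simpa using hcw none (by simp)
  have hcw1 : cw (some none) = t := by simpa using hcw (some none) (by simp)
  have hcws : ∀ y, cw y ≠ y ∧ cw y ≠ z3 y ∧ cw y ≠ e y := by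
    rintro (_ | _ | y)
    · simp [hcw0, hz3a, he0, c0, ct, bc.symm]
    · simp [hcw1, t1, hz3t.symm, he1.symm]
    · simpa using hcw' (some (some y)) (by simp)
  let e2 := φ.symm.trans e
  have he2 : ∀ y, e2 (φ y) = e y := fun y => by simp [e2]
  have he20 : e2 none = t := by rw [← φn, he2, he0]
  have he2s : ∀ y, y ≠ e2 y ∧ z2 y ≠ e2 y := fun y => by
    obtain ⟨y, rfl⟩ := φ.surjective y
    rw [he2]
    exact ⟨(hes y).2.2.1.symm, (hes y).2.2.2.symm⟩
  obtain ⟨al, hal, hal1, hal2⟩ := partAl (E := Bool) π (by simp) (fun i => if i then t else none)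
    (by rintro (_ | _) (_ | _) <;> simp [t0, t0.symm])
    (by
      rintro (_ | _) x h
      · exact absurd (inj _ _ (h.trans ha.symm)) (by simp)
      · exact absurd (inj _ _ (h.trans ht.symm)) (by simp))
  have al0 : ∀ x, al x ≠ none := fun x => hal1 x false
  have alt : ∀ x, al x ≠ t := fun x => hal1 x true
  obtain ⟨G, hG, hGa, hGl⟩ := ext none [Equiv.refl _, z2, e2] (by
    simpa using ⟨⟨hz21, fun y => (he2s y).1⟩, fun y => (he2s y).2⟩)
  obtain ⟨H, hH, hHa, hHl⟩ := ext none [Equiv.refl _, z3, e, cw] (by
    simpa using ⟨⟨hz31, fun y => (hes y).1.symm, fun y => (hcws y).1.symm⟩,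
      ⟨fun y => (hes y).2.1.symm, fun y => (hcws y).2.1.symm⟩, fun y => (hcws y).2.2.symm⟩)
  have hG0 : ∀ y, G none y = y := hGl (Equiv.refl _) (by simp)
  have hGz : ∀ y, G b y = z2 y := fun y => hz2a ▸ hGl z2 (by simp) y
  have hGe : ∀ y, G t y = e2 y := fun y => he20 ▸ hGl e2 (by simp) y
  have hH0 : ∀ y, H none y = y := hHl (Equiv.refl _) (by simp)
  have hHz : ∀ y, H b y = z3 y := fun y => hz3a ▸ hHl z3 (by simp) y
  have hHe : ∀ y, H t y = e y := fun y => he0 ▸ hHl e (by simp) y
  have hHc : ∀ y, H c y = cw y := fun y => hcw0 ▸ hHl cw (by simp) y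
  have gt : G (al u) (some none) = t := by
    rw [hal2 u b hb, hGz, hz22 _ hs1 t (by simp) ht]
  have hwt : H (al w) (some none) = t := by rw [hal2 w c hc, hHc, hcw1]
  refine trade (L := odL u w (K u w) t K (fun x => G (al x)) (fun x => H (al x)) D
      fun i _ => e (some i)) ⟨odL_row (e := e) hK.1 rfl (fun x => hG.1 _) gt
      (fun y x x' h => hal (hH.2 y h)) (fun x y h => al0 x (hH.2 y (h.trans (hH0 y).symm)))
      (fun x y h => alt x (hH.2 y (h.trans (hHe y).symm))) hwt he0 (fun y => (hes y).1) he1 t1
      hD.1 hD1 hD0 fun _ _ _ => rfl, fun y x x' h => ?_⟩ ?_ (inr none) (inl u) π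
    (univ.filter fun x => x ≠ inr none ∧ x ≠ inr (some none) ∧ (π x).isLeft = x.isLeft)
    (by simp) (by simp [hb]) ?_ ?_ ?_
  · simp only [odL_tr u w] at h
    exact odL_row (e := e2) hK.2 rfl (fun x => hH.1 _) hwt
      (fun y x x' h => hal (hG.2 y h)) (fun x y h => al0 x (hG.2 y (h.trans (hG0 y).symm)))
      (fun x y h => alt x (hG.2 y (h.trans (hGe y).symm))) gt he20 (fun y => (he2s y).1.symm)
      (fun h => by simpa using e2.injective (h.trans he20.symm)) t1
      hD.2 hD1 hD0 (fun i j h => by rw [← φs j i h, he2]) y h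
  · rintro (x | _ | _ | x) <;> simp [odL, odB, hd]
    rintro rfl
    exact h1
  · rintro (x | _ | _ | x) <;> simp [odL, odB, hGa, hHa]
  · rintro (x | _ | _ | x) hx <;> simp only [mem_filter, mem_univ, true_and, not_and] at hx
    · rcases h : π (inl x) with y | y
      · simp [h] at hx
      · simp [odL, hHa, hal2 x y h]
    · simp [odL, odB, ha]
    · simp [odL, odB, ht]
    · rcases h : π (inr (some (some x))) with y | y
      · simp [odL, odB, hγ x y h]
      · simp [h] at hx
  · rintro (x | _ | _ | x) hx <;> simp only [mem_filter, mem_univ, true_and] at hx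
    · rcases h : π (inl x) with y | y
      · have : x ≠ w := fun k => hw y (k ▸ h)
        simp [odL, hKu x y h, h1, this]
      · simp [h] at hx
    · simp at hx
    · simp at hx
    · rcases h : π (inr (some (some x))) with y | y
      · simp [h] at hx
      · simp [odL, hal2 u b hb, hGz, hHz, hz22 _ (mem_stay.2 ⟨_, h⟩) y (by simp) h,
          hz32 _ (mem_erase.2 ⟨by simp, mem_stay.2 ⟨_, h⟩⟩) y (by simp) h]

end Pool.Agent.Work.MP_394e0d_co.B
end
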