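import Pool.Agent.Work.MP_394e0d_co.B.Odd
import Pool.Agent.Work.MP_394e0d_co.B.Base
import Mathlib
import Pool.Agent.Work.MP_394e0d_co.B.Defs

-- merged part: Pool.Agent.Work.MP_394e0d_co.B.LS
section
namespace Pool.Agent.Work.MP_394e0d_co.B

open Finset Function Sum

theorem reduce {R B : Type} [Fintype R] [DecidableEq R] [Fintype B] [DecidableEq B] (a : R)
    (π : R ≃ R) (ha : π a = a) (hπ : ∀ x, π x = x → x = a) (S : Finset R) (haS : a ∉ S)
    (hc : Fintype.card (S ⊕ B) = Fintype.card R) (k : B → R) (hk : Injective k) (b0 : B)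
    (hb0 : k b0 = a)
    (H : ∀ σ : S ⊕ B ≃ S ⊕ B, σ (inr b0) = inr b0 → (∀ x, σ x = x → x = inr b0) →
      (∀ b, k b ∉ S → π (k b) ∉ S → ∃ t, σ (inr b) = inr t) →
      (∀ b b' x, σ (inr b) = inl x → π (k b') = x → b' = b) →
      (∀ x y, σ (inl x) = inl y → π x = y) → Sol (inr b0) σ) : Sol a π := by
  obtain ⟨e, he⟩ := extend hc (univ.filter fun z => ∀ b, z = inr b → k b ∉ S)
    (Sum.elim Subtype.val k) (by
      rintro (x | b) hx (y | b') hy h <;>
        simp only [coe_filter, mem_univ, true_and, Set.mem_ofPred_eq, inr.injEq, forall_eq',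
          elim_inl, elim_inr] at hx hy h
      · rw [Subtype.ext h]
      · exact absurd (h ▸ x.2) hy
      · exact absurd (h ▸ y.2) hx
      · rw [hk h])
  have e1 : ∀ x, e (inl x) = x := fun x => he _ (by simp)
  have e2 : ∀ b, k b ∉ S → e (inr b) = k b := fun b h => he _ (by simpa using h)
  have e3 : ∀ b, e (inr b) ∉ S := fun b h => by
    simpa using e.injective (e1 ⟨_, h⟩)
  have e0 : e (inr b0) = a := by rw [e2 _ (hb0 ▸ haS), hb0]
  have hσ : ∀ x y, (e.trans (π.trans e.symm)) x = y ↔ π (e x) = e y := fun x y => by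
    simp [Equiv.symm_apply_eq]
  refine Sol.map e.symm (π := e.trans (π.trans e.symm)) ?_ (by simp)
  rw [← e0, e.symm_apply_apply]
  refine H _ (by rw [hσ, e0, ha]) (fun x h => e.injective ((hπ _ ((hσ _ _).1 h)).trans e0.symm))
    (fun b h h' => ?_) (fun b b' x h h' => ?_) fun x y h => by rwa [hσ, e1, e1] at h
  · obtain ⟨x | t, ht⟩ := e.surjective (π (k b))
    · exact absurd (ht ▸ e1 x ▸ x.2) h'
    · exact ⟨t, by rw [hσ, e2 b h, ht]⟩
  · rw [hσ, e1, ← h'] at h
    have := π.injective h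
    exact inr_injective (e.injective ((e2 b' (this ▸ e3 b)).trans this.symm))

theorem exists_not_mem {R : Type} [Fintype R] [DecidableEq R] (l : List R)
    (h : l.length < Fintype.card R) : ∃ x, x ∉ l := by
  by_contra hn
  have : l.toFinset = univ := eq_univ_of_forall fun x => by
    by_contra hx
    exact hn ⟨x, by simpa using hx⟩
  have h2 := List.toFinset_card_le l
  rw [this, card_univ] at h2
  omega

theorem ls (n : ℕ) : ∀ {R : Type} [Fintype R] [DecidableEq R] (a : R) (π : R ≃ R),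
    Fintype.card R = n → π a = a → (∀ x, π x = x → x = a) →
      n = 3 ∨ (n = 5 ∧ ∃ x, π (π x) ≠ x) ∨ 7 ≤ n → Sol a π := by
  induction n using Nat.strong_induction_on with
  | _ n ih =>
  intro R _ _ a π hn ha hπ h
  by_cases h15 : n < 15
  · exact base a π ha hπ (hn ▸ h15) (hn ▸ h)
  obtain ⟨u, hu⟩ := exists_not_mem [a] (by simp; omega)
  obtain ⟨w, hw⟩ := exists_not_mem [a, u, π u, π.symm u] (by simp; omega)
  obtain ⟨w', hw'⟩ := exists_not_mem [a, u, π u, π.symm u, w, π w, π.symm w] (by simp; omega)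
  simp only [List.mem_cons, List.not_mem_nil, or_false, not_or, Equiv.eq_symm_apply] at hu hw hw'
  obtain ⟨S, hS1, hS2, hS⟩ := exists_subsuperset_card_eq (s := {u, w, w'})
    (t := univ \ [a, π u, π.symm u, π w, π w'].toFinset) (n := (n - 1) / 2)
    (by
      intro x hx
      simp only [mem_insert, mem_singleton] at hx
      simp only [mem_sdiff, mem_univ, true_and, List.mem_toFinset, List.mem_cons,
        List.not_mem_nil, or_false, not_or, Equiv.eq_symm_apply]
      grind)
    (card_le_three.trans (by omega))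
    (by
      have := List.toFinset_card_le [a, π u, π.symm u, π w, π w']
      rw [card_univ_sdiff]
      simp only [List.length_cons, List.length_nil] at this
      omega)
  have hS3 : ∀ x ∈ S, x ≠ a ∧ x ≠ π u ∧ π x ≠ u ∧ x ≠ π w ∧ x ≠ π w' := fun x hx => by
    simpa [Equiv.eq_symm_apply] using hS2 hx
  have haS : a ∉ S := fun h => (hS3 a h).1 rfl
  have hA : Fintype.card S = (n - 1) / 2 := by simpa using hS
  let u0 : S := ⟨u, hS1 (by simp)⟩
  let w0 : S := ⟨w, hS1 (by simp)⟩
  let w1 : S := ⟨w', hS1 (by simp)⟩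
  have d1 : u0 ≠ w0 := fun h => hw.2.1 (congrArg Subtype.val h).symm
  have d2 : u0 ≠ w1 := fun h => hw'.2.1 (congrArg Subtype.val h).symm
  have d3 : w0 ≠ w1 := fun h => hw'.2.2.2.2.1 (congrArg Subtype.val h).symm
  have IH : ∀ σ : S ≃ S, σ u0 = u0 → (∀ x, σ x = x → x = u0) → Sol u0 σ := fun σ h1 h2 =>
    ih _ (by omega) u0 σ hA h1 h2 (by omega)
  have hsa : π.symm a = a := by rw [Equiv.symm_apply_eq, ha]
  rcases Nat.even_or_odd' n with ⟨m, rfl | rfl⟩
  · obtain ⟨y, hy⟩ := exists_not_mem (a :: (S.toList ++ S.toList.map π.symm)) (by simp; omega)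
    simp only [List.mem_cons, List.mem_append, mem_toList, List.mem_map, not_or, not_exists,
      not_and, Equiv.symm_apply_eq] at hy
    have hy' : π y ∉ S := fun h => hy.2.2 _ h rfl
    refine reduce (B := Option (Option S)) a π ha hπ S haS (by simp; omega)
      (fun b => π.symm (b.elim a fun c => c.elim (π y) Subtype.val)) ?_ none hsa
      fun σ h1 h2 h3 h4 h5 => ?_
    · have : π y ≠ a := fun h => hy.1 (π.injective (h.trans ha.symm))
      rintro (_ | _ | ⟨x, hx⟩) (_ | _ | ⟨x', hx'⟩) h <;> simp at h ⊢ <;> grind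
    · obtain ⟨t, ht⟩ := h3 (some none) (by simpa using hy.2.1) (by simpa using hy')
      exact odd_sol (by omega) σ h1 h2 t ht
        (fun p x h => by simpa using h4 _ (some (some x)) x h (by simp)) u0 w0 w1 d1 d2 d3
        (fun x h => (hS3 _ x.2).2.1 (h5 _ _ h).symm) (fun x h => (hS3 _ x.2).2.2.1 (h5 _ _ h))
        (fun x h => (hS3 _ x.2).2.2.2.1 (h5 _ _ h).symm)
        (fun x h => (hS3 _ x.2).2.2.2.2 (h5 _ _ h).symm) IH
  · refine reduce (B := Option S) a π ha hπ S haS (by simp; omega)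
      (fun b => π.symm (b.elim a Subtype.val)) ?_ none hsa fun σ h1 h2 h3 h4 h5 => ?_
    · rintro (_ | ⟨x, hx⟩) (_ | ⟨x', hx'⟩) h <;> simp at h ⊢ <;> grind
    · exact even_sol σ h1 h2
        (fun p x h => by simpa using h4 _ (some x) x h (by simp)) u0 w0 w1 d1 d2 d3
        (fun x h => (hS3 _ x.2).2.1 (h5 _ _ h).symm) (fun x h => (hS3 _ x.2).2.2.1 (h5 _ _ h))
        (fun x h => (hS3 _ x.2).2.2.2.1 (h5 _ _ h).symm)
        (fun x h => (hS3 _ x.2).2.2.2.2 (h5 _ _ h).symm) IH

end Pool.Agent.Work.MP_394e0d_co.B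
end

-- merged part: Pool.Agent.Work.MP_394e0d_co.B.Net
section
namespace Pool.Agent.Work.MP_394e0d_co.B

open Function

/-- An affine plane: `ln P d` is the line through the point `P` in direction `d`. -/
structure Net {Pt D Ln : Type} (ln : Pt → D → Ln) : Prop where
  join : ∀ P Q, P ≠ Q → ∃! d, ln P d = ln Q d
  meet : ∀ P Q d e, d ≠ e → ∃! X, ln X d = ln P d ∧ ln X e = ln Q e

/-- A labelling of the flags: a derangement of the directions at each point, injective along
each line. -/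
def Labels {Pt D Ln : Type} (ln : Pt → D → Ln) (s : Pt → D → D) : Prop :=
  (∀ P, Injective (s P)) ∧ (∀ P d, s P d ≠ d) ∧
    ∀ P Q d, ln P d = ln Q d → s P d = s Q d → P = Q

end Pool.Agent.Work.MP_394e0d_co.B
end

-- merged part: Pool.Agent.Work.MP_394e0d_co.B.Geo
section
namespace Pool.Agent.Work.MP_394e0d_co.B

open Finset Function

theorem Net.comp {Pt D D' Ln : Type} {ln : Pt → D → Ln} (h : Net ln) (e : D' ≃ D) :
    Net fun P d => ln P (e d) :=
  ⟨fun P Q k => (e.existsUnique_congr_left (p := fun d => ln P (e d) = ln Q (e d))).2 (by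
    simpa using h.join P Q k), fun P Q d d' k => h.meet P Q _ _ (e.injective.ne k)⟩

theorem Labels.comp {Pt D D' Ln : Type} {ln : Pt → D → Ln} (e : D' ≃ D)
    (h : ∃ s, Labels (fun P d => ln P (e d)) s) : ∃ s, Labels ln s := by
  obtain ⟨s, h1, h2, h3⟩ := h
  refine ⟨fun P d => e (s P (e.symm d)), fun P d d' k => e.symm.injective (h1 P (e.injective k)),
    fun P d k => h2 P (e.symm d) (e.eq_symm_apply.2 k), fun P Q d k k' =>
      h3 P Q (e.symm d) (by simpa using k) (e.injective k')⟩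

theorem Net.uniq {Pt D Ln : Type} {ln : Pt → D → Ln} (h : Net ln) {P Q : Pt} {d e : D}
    (hde : d ≠ e) (h1 : ln P d = ln Q d) (h2 : ln P e = ln Q e) : P = Q :=
  (h.meet Q Q d e hde).unique ⟨h1, h2⟩ ⟨rfl, rfl⟩

theorem Net.dir {Pt R Ln : Type} {ln : Pt → Option R → Ln} (h : Net ln) {P Q : Pt}
    (k : ln P none ≠ ln Q none) : ∃ τ : R, ∀ m, ln P (some m) = ln Q (some m) ↔ m = τ := by
  obtain ⟨_ | τ, h1, h2⟩ := h.join P Q fun e => k (e ▸ rfl)
  · exact absurd h1 k
  · exact ⟨τ, fun m => ⟨fun e => Option.some.inj (h2 _ e), fun e => e ▸ h1⟩⟩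

theorem labels_of {Pt R Ln : Type} [DecidableEq R] {ln : Pt → Option R → Ln} (h : Net ln)
    (X sl : Pt → R) (T : R → R → R) (C : R → R → Ln) (hT : Lat T) (hd : ∀ x, T x x = x)
    (hX : ∀ P Q, X P = X Q ↔ ln P none = ln Q none)
    (hs : ∀ P Q, X P = X Q → sl P = sl Q → P = Q)
    (hC : ∀ P m, m ≠ X P → (sl P = m ↔ ln P (some m) = C (X P) m))
    (hCT : ∀ x m, C (T x m) m = C x m) : ∃ s, Labels ln s := by
  have k1 : ∀ x y y', T x y = T x y' → y = y' := fun x y y' e => hT.1 x e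
  have k2 : ∀ x x' y, T x y = T x' y → x = x' := fun x x' y e => hT.2 y e
  refine ⟨fun P d => d.elim (some (T (X P) (sl P))) fun m => if m = X P then none else
    some (if sl P = m then X P else T (X P) m), ?_, ?_, ?_⟩
  · rintro P (_ | m) (_ | m') e <;> have := hd (X P) <;> simp only [Option.elim] at e <;> grind
  · rintro P (_ | m) e
    · simp at e
    · have := hd m
      simp only [Option.elim] at e
      grind
  · rintro P Q (_ | m) e e' <;> simp only [Option.elim] at e'
    · have := (hX P Q).2 e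
      grind
    · refine h.uniq (d := none) (e := some m) (by simp) ((hX P Q).1 ?_) e
      have a1 := hC P m
      have a2 := hC Q m
      have a3 := hCT (X P) m
      have a4 := hCT (X Q) m
      grind

theorem labels_mid {Pt R Ln : Type} [Fintype R] [DecidableEq R] {ln : Pt → Option R → Ln}
    (h : Net ln) (O Z : Pt) (o z : R) (π : R ≃ R) (hπ : Sol o π) (X : Pt → R)
    (hX : ∀ P Q, X P = X Q ↔ ln P none = ln Q none) (hO : X O = o) (hZ : X Z ≠ o)
    (hz : ln O (some z) = ln Z (some z))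
    (hY : ∀ x ≠ o, π x ≠ z → ∃ Y, X Y = x ∧ ln Y (some x) = ln O (some x) ∧
      ln Y (some (π x)) = ln Z (some (π x))) : ∃ s, Labels ln s := by
  obtain ⟨L, hL, hd, hLo⟩ := hπ
  choose T hT using fun x m => Finite.injective_iff_surjective.1 (hL.1 x) m
  have hT' : ∀ x s m, L x s = m → T x m = s := fun x s m e => hL.1 x ((hT x m).trans e.symm)
  have hTl : Lat T := ⟨fun x m m' e => by rw [← hT x m, e, hT],
    fun m x x' e => hL.2 (T x m) ((hT x m).trans (by
      rw [show T x m = T x' m from e]; exact (hT x' m).symm))⟩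
  have hA : ∀ P, ln P none ≠ ln (if X P = o then Z else O) none := fun P e => by
    rw [← hX] at e
    split_ifs at e <;> grind
  choose τ hτ using fun P => h.dir (hA P)
  refine labels_of h X (fun P => if X P = o ∨ π (X P) = z then τ P else
    Equiv.swap (X P) (π (X P)) (τ P)) T
    (fun x m => if x = o ∨ m = π x then ln Z (some m) else ln O (some m)) hTl
    (fun x => hT' _ _ _ (hd x)) hX (fun P Q e e' => ?_) (fun P m hm => ?_) fun x m => ?_
  · have : τ P = τ Q := by
      rw [← e] at e'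
      split_ifs at e'
      · exact e'
      · exact (Equiv.swap _ _).injective e'
    refine h.uniq (d := none) (e := some (τ P)) (by simp) ((hX P Q).1 e) ?_
    rw [(hτ P _).2 rfl, (hτ Q _).2 this, e]
  · have a1 := hτ P m
    by_cases g1 : X P = o
    · simp only [g1, true_or, if_true] at a1 ⊢
      rw [a1, eq_comm]
    by_cases g2 : π (X P) = z
    · simp only [g1, g2, or_true, if_true, if_false, false_or] at a1 ⊢
      grind
    simp only [g1, g2, or_self, if_false, false_or, Equiv.swap_apply_eq_iff] at a1 ⊢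
    by_cases g3 : m = π (X P)
    · obtain ⟨Y, y1, y2, y3⟩ := hY _ g1 g2
      have a2 := hτ P (X P)
      have a3 := (hX P Y).1 y1.symm
      simp only [g1, if_false] at a2
      rw [if_pos g3, g3, Equiv.swap_apply_right, eq_comm, ← a2, ← y2, ← y3]
      exact ⟨fun e => by rw [← h.uniq (by simp) a3 e], fun e => by rw [← h.uniq (by simp) a3 e]⟩
    · rw [if_neg g3, Equiv.swap_apply_of_ne_of_ne hm g3, a1, eq_comm]
  · obtain ⟨y, rfl⟩ := π.surjective m
    have a1 := hT' _ _ _ (hLo y).1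
    have a2 := hT' _ _ _ (hLo y).2
    have a3 : ∀ x', T x (π y) = T x' (π y) → x = x' := fun x' e => hTl.2 _ e
    simp only [EmbeddingLike.apply_eq_iff_eq]
    grind

theorem choose_pi {R : Type} [Fintype R] [DecidableEq R] (θ : R ≃ R) (hθ : ∀ x, θ x ≠ x)
    (hc : Fintype.card R = 3 ∨ Fintype.card R = 5 ∨ 7 ≤ Fintype.card R) :
    ∃ o z, ∃ π : R ≃ R, θ z = o ∧ (∀ x ≠ o, x ≠ z → π x ≠ z → π x = θ x) ∧ Sol o π := by
  have inj : ∀ x y, θ x = θ y → x = y := fun x y e => θ.injective e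
  by_cases h : ∃ z, θ (θ z) = z
  · obtain ⟨z, hz⟩ := h
    obtain ⟨r, hr⟩ := exists_not_mem [z, θ z] (by simp; omega)
    simp only [List.mem_cons, List.not_mem_nil, or_false, not_or] at hr
    have k : ∀ x, ((Equiv.swap z r).trans ((Equiv.swap (θ z) z).trans θ)) x =
        if x = θ z then θ z else if x = z then θ r else if x = r then z else θ x := fun x => by
      simp only [Equiv.trans_apply, Equiv.swap_apply_def]
      grind
    refine ⟨θ z, z, (Equiv.swap z r).trans ((Equiv.swap (θ z) z).trans θ), rfl, ?_,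
      ls _ _ _ rfl (by simp [k]) ?_ (hc.imp_right (Or.imp_left fun e => ⟨e, r, ?_⟩))⟩ <;>
      simp only [k] <;> grind
  · obtain ⟨z, -⟩ := exists_not_mem ([] : List R) (by simp; omega)
    have k : ∀ x, ((Equiv.swap (θ z) z).trans θ) x =
        if x = θ z then θ z else if x = z then θ (θ z) else θ x := fun x => by
      simp only [Equiv.trans_apply, Equiv.swap_apply_def]
      grind
    refine ⟨θ z, z, (Equiv.swap (θ z) z).trans θ, rfl, ?_,
      ls _ _ _ rfl (by simp [k]) ?_ (hc.imp_right (Or.imp_left fun e => ⟨e, ?_⟩))⟩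
    · simp only [k]
      grind
    · simp only [k]
      grind
    · obtain ⟨r, hr⟩ := exists_not_mem [z, θ z, θ.symm z] (by simp; omega)
      simp only [List.mem_cons, List.not_mem_nil, or_false, not_or, Equiv.eq_symm_apply] at hr
      refine ⟨r, ?_⟩
      simp only [k]
      grind

theorem geo_core {Pt R Ln : Type} [Fintype R] [DecidableEq R] {ln : Pt → Option R → Ln}
    (h : Net ln) (O Z : Pt) (hOZ : O ≠ Z) (hW : ln O none = ln Z none)
    (hc : Fintype.card R = 3 ∨ Fintype.card R = 5 ∨ 7 ≤ Fintype.card R) : ∃ s, Labels ln s := by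
  obtain ⟨d1, d2, hd⟩ := Fintype.exists_pair_of_one_lt_card (α := R) (by omega)
  obtain ⟨Λ, ⟨l1, l2⟩, -⟩ := h.meet O Z (some d1) (some d2) (by simpa using hd)
  have hΛ : ln Λ none ≠ ln O none := fun e => by
    obtain rfl := h.uniq (by simp) e l1
    exact hOZ (h.uniq (by simp) hW l2)
  choose p hp1 hp2 using fun x => (h.meet O Λ (some x) none (by simp)).exists
  have hp : ∀ Y, ln Y none = ln Λ none → ∃ x, ∀ m, p m = Y ↔ m = x := fun Y e => by
    obtain ⟨x, hx⟩ := h.dir (P := Y) (Q := O) (e ▸ hΛ)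
    refine ⟨x, fun m => ⟨fun k => (hx m).1 (k ▸ hp1 m), fun k => ?_⟩⟩
    exact h.uniq (by simp) ((hp2 m).trans e.symm) ((hp1 m).trans ((hx m).2 k).symm)
  have pinj : ∀ x y, p x = p y → x = y := fun x y e => by
    obtain ⟨v, hv⟩ := hp (p y) (hp2 y)
    rw [(hv x).1 e, (hv y).1 rfl]
  choose θ0 hθ using fun x => h.dir (P := p x) (Q := Z) (by rw [hp2, ← hW]; exact hΛ)
  have θinj : Injective θ0 := fun x y e => pinj _ _ (h.uniq (by simp)
    ((hp2 x).trans (hp2 y).symm) (((hθ x _).2 rfl).trans ((hθ y _).2 e).symm))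
  have θne : ∀ x, θ0 x ≠ x := fun x e =>
    hOZ (h.uniq (by simp) hW ((hp1 x).symm.trans ((hθ x x).2 e.symm)))
  obtain ⟨o, z, π, h1, h2, h3⟩ :=
    choose_pi (Equiv.ofBijective θ0 (Finite.injective_iff_bijective.1 θinj)) θne hc
  simp only [Equiv.ofBijective_apply] at h1 h2
  have hoz : o ≠ z := fun e => θne z (h1.trans e)
  have hX0 : ∀ P, ∃ x, ∀ m, ln (p m) (some o) = ln P (some o) ↔ m = x := fun P => by
    obtain ⟨Y, ⟨y1, y2⟩, -⟩ := h.meet P Λ (some o) none (by simp)
    obtain ⟨x, hx⟩ := hp Y y2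
    exact ⟨x, fun m => ⟨fun e => (hx m).1 (h.uniq (by simp) ((hp2 m).trans y2.symm)
      (e.trans y1.symm)), fun e => (hx m).2 e ▸ y1⟩⟩
  choose X hX using hX0
  let β : Option R ≃ Option R := (Equiv.swap none (some o)).trans (Equiv.swap none (some z))
  have β0 : β none = some o := by simp [β, Equiv.swap_apply_def, hoz]
  have βz : β (some z) = none := by simp [β, Equiv.swap_apply_def, hoz.symm]
  have βx : ∀ x ≠ o, x ≠ z → β (some x) = some x := fun x a b => by
    simp [β, Equiv.swap_apply_def, a, b]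
  have hZ : X Z = z := ((hX Z z).1 ((hθ z o).2 h1.symm)).symm
  refine Labels.comp β (labels_mid (h.comp β) O Z o z π h3 X (fun P Q => ?_)
    ((hX O o).1 (hp1 o)).symm (hZ ▸ hoz.symm) (by rw [βz, hW]) fun x a b => ?_)
  · rw [β0, ← (hX P _).2 rfl, hX]
  · by_cases g : x = z
    · exact ⟨Z, hZ.trans g.symm, by rw [g, βz, hW], rfl⟩
    · have e := h2 x a g b
      refine ⟨p x, ((hX _ x).1 rfl).symm, by rw [βx x a g, hp1], ?_⟩
      rw [βx _ (fun k => g (θinj (e.symm.trans (k.trans h1.symm)))) b]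
      exact (hθ x _).2 e

theorem geo {Pt D Ln : Type} [Fintype D] [Nontrivial Pt] {ln : Pt → D → Ln} (h : Net ln)
    (hc : Fintype.card D = 4 ∨ Fintype.card D = 6 ∨ 8 ≤ Fintype.card D) : ∃ s, Labels ln s := by
  classical
  obtain ⟨O, Z, hOZ⟩ := exists_pair_ne Pt
  obtain ⟨w, hw, -⟩ := h.join O Z hOZ
  have := Fintype.card_congr (Equiv.optionSubtypeNe w)
  rw [Fintype.card_option] at this
  exact Labels.comp (Equiv.optionSubtypeNe w)
    (geo_core (h.comp (Equiv.optionSubtypeNe w)) O Z hOZ hw (by omega))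

end Pool.Agent.Work.MP_394e0d_co.B
end

-- merged part: Pool.Agent.Work.MP_394e0d_co.B.Uta
section
namespace Pool.Agent.Work.MP_394e0d_co.B

open Classical in
theorem Uta_card {V : Type} [Fintype V] (S : Set V) : S.ncard = ∑ s, if s ∈ S then 1 else 0 := by
  rw [← Finset.card_filter, ← Set.ncard_coe_finset]
  simp

theorem Uta_dc {I V : Type} [Fintype I] [Fintype V] (F : I → Set V) (T : Set V) {e : ℕ}
    (h : ∀ s, {i | s ∈ F i}.ncard = e) : ∑ i, (F i ∩ T).ncard = T.ncard * e := by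
  classical
  simp only [Uta_card, Set.mem_inter_iff, Set.mem_ofPred_eq] at h ⊢
  rw [Finset.sum_comm, Finset.sum_mul]
  refine Finset.sum_congr rfl fun s _ => ?_
  by_cases hs : s ∈ T
  · simp only [hs, and_true, if_true, one_mul, h]
  · simp [hs]

/-- The affine plane of an unordered triple array: `ln j i` is the symbol of column `j` that is
missing from row `i`. -/
theorem uta_net (q : ℕ) (hq : 2 < q) (row : Fin (q + 1) → Set (Fin (q * (q + 1))))
    (col : Fin (q ^ 2) → Set (Fin (q * (q + 1)))) (h : IsUnorderedTripleArray row col) :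
    ∃ ln : Fin (q ^ 2) → Fin (q + 1) → Fin (q * (q + 1)), Net ln ∧
      (∀ j, Set.range (ln j) = col j) ∧ ∀ j d i, ln j d ∈ row i ↔ d ≠ i := by
  obtain ⟨h1, h2, ⟨e, h3⟩, ⟨a, h4⟩, -, b, h5⟩ := h
  simp only [Nat.card_eq_fintype_card, Fintype.card_fin] at h1 h2
  have q0 : 0 < q := by omega
  obtain rfl : q = e := by
    have := Uta_dc row Set.univ fun s => (h3 s).1
    simp only [Set.inter_univ, h1, Finset.sum_const, Finset.card_univ, Fintype.card_fin,
      smul_eq_mul, Set.ncard_univ, Nat.card_eq_fintype_card] at this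
    exact Nat.eq_of_mul_eq_mul_left (Nat.mul_pos q0 q.succ_pos) (by rw [Nat.succ_eq_add_one, ← this]; ring)
  let j0 : Fin (q ^ 2) := ⟨0, by positivity⟩
  obtain rfl : q = a := by
    have := Uta_dc row (col j0) fun s => (h3 s).1
    simp only [h4, h2, Finset.sum_const, Finset.card_univ, Fintype.card_fin, smul_eq_mul] at this
    exact (Nat.eq_of_mul_eq_mul_left q.succ_pos this).symm
  obtain rfl : b = 1 := by
    have := Uta_dc col (col j0) fun s => (h3 s).2
    rw [← Finset.add_sum_erase _ _ (Finset.mem_univ j0), Set.inter_self, h2,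
      Finset.sum_congr rfl fun j hj => h5 j j0 (Finset.ne_of_mem_erase hj), Finset.sum_const,
      Finset.card_erase_of_mem (Finset.mem_univ _), Finset.card_univ, Fintype.card_fin,
      smul_eq_mul] at this
    obtain ⟨n, hn⟩ : ∃ n, q ^ 2 = n + 2 := ⟨q ^ 2 - 2, by
      have : 2 ≤ q ^ 2 := by nlinarith
      omega⟩
    rw [hn, show (q + 1) * q = q + q ^ 2 by ring, hn, show n + 2 - 1 = n + 1 from rfl] at this
    have e2 : (n + 1) * b = (n + 1) * 1 := by omega
    exact Nat.eq_of_mul_eq_mul_left n.succ_pos e2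
  have k1 : ∀ j i, ∃ x, col j \ row i = {x} := fun j i => Set.ncard_eq_one.1 (by
    have := Set.ncard_inter_add_ncard_sdiff_eq_ncard (col j) (row i)
    rw [Set.inter_comm, h4, h2] at this
    omega)
  have k2 : ∀ s, ∃ m, {i | s ∈ row i}ᶜ = {m} := fun s => Set.ncard_eq_one.1 (by
    have := Set.ncard_add_ncard_compl {i | s ∈ row i}
    rw [(h3 s).1, Nat.card_eq_fintype_card, Fintype.card_fin] at this
    omega)
  choose ln hl using k1
  choose m hm using k2
  have m1 : ∀ s i, s ∉ row i ↔ i = m s := fun s i => Set.ext_iff.1 (hm s) i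
  have l1 : ∀ j i x, x ∈ col j ∧ x ∉ row i ↔ x = ln j i := fun j i x => Set.ext_iff.1 (hl j i) x
  have l2 : ∀ j i, ln j i ∈ col j := fun j i => ((l1 j i _).2 rfl).1
  have l3 : ∀ j i, ln j i ∉ row i := fun j i => ((l1 j i _).2 rfl).2
  have l4 : ∀ j i, i = m (ln j i) := fun j i => (m1 _ _).1 (l3 j i)
  have l5 : ∀ j x, x ∈ col j → ln j (m x) = x := fun j x hx =>
    ((l1 j _ x).1 ⟨hx, (m1 _ _).2 rfl⟩).symm
  have join : ∀ P Q, P ≠ Q → ∃! d, ln P d = ln Q d := fun P Q hne => by
    obtain ⟨x, hx⟩ := Set.ncard_eq_one.1 (h5 P Q hne)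
    have hx' : x ∈ col P ∩ col Q := hx ▸ rfl
    refine ⟨m x, (l5 P x hx'.1).trans (l5 Q x hx'.2).symm, fun d hd => ?_⟩
    have : ln P d ∈ col P ∩ col Q := ⟨l2 P d, hd ▸ l2 Q d⟩
    rw [hx] at this
    exact (l4 P d).trans (congrArg m this)
  refine ⟨ln, ⟨join, fun P Q d e hne => ?_⟩, fun j => Set.Subset.antisymm
    (Set.range_subset_iff.2 (l2 j)) fun x hx => ⟨_, l5 j x hx⟩, fun j d i => ?_⟩
  · have s1 : ∀ X, ln P d ∈ col X → ln X d = ln P d := fun X hX =>
      ((l1 X d _).1 ⟨hX, l3 P d⟩).symm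
    have s2 : ∀ X Y, ln X d = ln Y d → ln X e = ln Y e → X = Y := fun X Y a b =>
      by_contra fun c => hne ((join X Y c).unique a b)
    have s3 : (fun X => ln X e) '' {X | ln P d ∈ col X} = (row e)ᶜ := by
      refine Set.eq_of_subset_of_ncard_le (by rintro _ ⟨X, -, rfl⟩; exact l3 X e) ?_
      have := Set.ncard_add_ncard_compl (row e)
      rw [h1, Nat.card_eq_fintype_card, Fintype.card_fin] at this
      have e2 : q * (q + 1) = q ^ 2 + q := by ring
      have e3 : Set.InjOn (fun X => ln X e) {X | ln P d ∈ col X} := fun X hX Y hY =>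
        s2 X Y ((s1 X hX).trans (s1 Y hY).symm)
      rw [e3.ncard_image, (h3 _).2]
      omega
    obtain ⟨X, hX, hXe⟩ : ln Q e ∈ (fun X => ln X e) '' {X | ln P d ∈ col X} := s3 ▸ l3 Q e
    exact ⟨X, ⟨s1 X hX, hXe⟩, fun Y hY => s2 Y X (hY.1.trans (s1 X hX).symm) (hY.2.trans hXe.symm)⟩
  · rw [← not_iff_not, m1, ← l4, not_not, eq_comm]

/-- A labelling of the flags orders the unordered triple array. -/
theorem uta_order (q : ℕ) (row : Fin (q + 1) → Set (Fin (q * (q + 1))))
    (col : Fin (q ^ 2) → Set (Fin (q * (q + 1)))) (h : IsUnorderedTripleArray row col)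
    (ln : Fin (q ^ 2) → Fin (q + 1) → Fin (q * (q + 1))) (hc : ∀ j, Set.range (ln j) = col j)
    (hr : ∀ j d i, ln j d ∈ row i ↔ d ≠ i) (s : Fin (q ^ 2) → Fin (q + 1) → Fin (q + 1))
    (hs : Labels ln s) :
    ∃ A : Fin (q + 1) → Fin (q ^ 2) → Fin (q * (q + 1)), IsTripleArray A ∧
      (∀ i, Set.range (A i) = row i) ∧ ∀ j, Set.range (fun i => A i j) = col j := by
  obtain ⟨h1, -, ⟨e, h3⟩, ⟨a, h4⟩, ⟨b, h5⟩, c, h6⟩ := h
  let E := fun j => Equiv.ofBijective (s j) (Finite.injective_iff_bijective.1 (hs.1 j))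
  have hE : ∀ j i, s j ((E j).symm i) = i := fun j => (E j).apply_symm_apply
  have hd : ∀ j j' d d', ln j d = ln j' d' → d = d' := fun j j' d d' a =>
    by_contra fun b => (hr j' d' d').1 (a ▸ (hr j d d').2 b) rfl
  have r1 : ∀ i, Function.Injective fun j => ln j ((E j).symm i) := fun i j j' a => by
    have b := hd _ _ _ _ a
    refine hs.2.2 j j' ((E j).symm i) (a.trans (congrArg _ b.symm)) ?_
    rw [hE, b, hE]
  have c1 : ∀ j, Function.Injective fun i => ln j ((E j).symm i) := fun j i i' a =>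
    (E j).symm.injective (hd _ _ _ _ a)
  have r2 : ∀ i, Set.range (fun j => ln j ((E j).symm i)) = row i := fun i => by
    refine Set.eq_of_subset_of_ncard_le (Set.range_subset_iff.2 fun j => (hr _ _ _).2 fun a => ?_)
      (by rw [h1, Set.ncard_range_of_injective (r1 i)])
    exact hs.2.1 j _ ((hE j i).trans a.symm)
  have c2 : ∀ j, Set.range (fun i => ln j ((E j).symm i)) = col j := fun j =>
    ((E j).symm.surjective.range_comp (ln j)).trans (hc j)
  refine ⟨fun i j => ln j ((E j).symm i), ⟨r1, c1, ⟨e, fun x => ?_⟩, ⟨a, fun i j => ?_⟩,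
    ⟨b, fun i i' hi => ?_⟩, c, fun j j' hj => ?_⟩, r2, c2⟩
  · rw [← (h3 x).2, ← Set.InjOn.ncard_image (f := Prod.snd)]
    · refine congrArg _ (Set.ext fun j => ?_)
      rw [Set.mem_ofPred_eq, ← c2]
      exact ⟨fun ⟨p, hp, hj⟩ => ⟨p.1, hj ▸ hp⟩, fun ⟨i, hi⟩ => ⟨(i, j), hi, rfl⟩⟩
    · rintro ⟨i, j⟩ a ⟨i', j'⟩ b (rfl : j = j')
      exact Prod.ext (c1 j (a.trans b.symm)) rfl
  · rw [r2, c2, h4]
  · rw [r2, r2, h5 i i' hi]
  · rw [c2, c2, h6 j j' hj]

end Pool.Agent.Work.MP_394e0d_co.B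
end
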